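import Pool.Agent.H10.MU.LinOrd
import Pool.Agent.H58.Mult.Event

/-! # Translates of difference sets (MP_3e22f2_co) -/

set_option autoImplicit false

namespace Pool.Agent.H66.CM

open Finset Pool.Agent.H58.Mult Pool.Agent.H10.MU

variable {v : ℕ} [NeZero v] {D : Finset (ZMod v)} {l : ℤ}

omit [NeZero v] in
/-- A translate of a difference set is a difference set. -/
theorem isDS_image_add (hD : IsDS D l) (c : ZMod v) : IsDS (D.image fun x => x + c) l := by
  intro α hα
  rw [← hD α hα]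
  unfold cnt
  rw [Finset.sum_image (fun x _ y _ h => add_right_cancel h)]
  refine Finset.sum_congr rfl fun x _ => ?_
  rw [Finset.sum_image (fun x _ y _ h => add_right_cancel h)]
  refine Finset.sum_congr rfl fun y _ => ?_
  have h : (1 * (x + c) - (y + c) = α) = (1 * x - y = α) := by
    rw [one_mul, one_mul, add_sub_add_right_eq_sub]
  simp only [h]

/-- `t` is a multiplier of `D`. -/
def IsMult (D : Finset (ZMod v)) (t : (ZMod v)ˣ) : Prop :=
  ∃ s : ZMod v, D.image (fun x => (t : ZMod v) * x) = D.image (fun x => x + s)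

omit [NeZero v] in
theorem isMult_of_shift (c : ZMod v) (t : (ZMod v)ˣ) (h : IsMult (D.image fun x => x + c) t) :
    IsMult D t := by
  obtain ⟨s, hs⟩ := h
  rw [Finset.image_image, Finset.image_image] at hs
  refine ⟨c + s - t * c, ?_⟩
  have h1 := congrArg (fun A : Finset (ZMod v) => A.image fun x => x - t * c) hs
  rw [Finset.image_image, Finset.image_image] at h1
  have e1 : ((fun x : ZMod v => x - t * c) ∘ ((fun x => (t : ZMod v) * x) ∘ fun x => x + c)) =
      fun x => (t : ZMod v) * x := by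
    funext x
    simp only [Function.comp]
    ring
  have e2 : ((fun x : ZMod v => x - t * c) ∘ ((fun x => x + s) ∘ fun x => x + c)) =
      fun x => x + (c + s - t * c) := by
    funext x
    simp only [Function.comp]
    ring
  rw [e1, e2] at h1
  exact h1

theorem sum_univ_id (hv2 : ¬ 2 ∣ v) : ∑ g : ZMod v, g = 0 := by
  have h1 : ∑ g : ZMod v, g = ∑ g : ZMod v, -g :=
    Fintype.sum_equiv (Equiv.neg _) _ _ fun x => by simp
  rw [Finset.sum_neg_distrib] at h1
  have h2 : (2 : ZMod v) * ∑ g : ZMod v, g = 0 := by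
    rw [two_mul]
    nth_rewrite 1 [h1]
    exact neg_add_cancel _
  have hc : Nat.Coprime 2 v := (Nat.Prime.coprime_iff_not_dvd Nat.prime_two).2 hv2
  have h3 : ((ZMod.unitOfCoprime 2 hc : (ZMod v)ˣ) : ZMod v) = 2 := by
    rw [ZMod.coe_unitOfCoprime]
    norm_num
  rw [← h3] at h2
  have h4 := congrArg (fun z => (((ZMod.unitOfCoprime 2 hc)⁻¹ : (ZMod v)ˣ) : ZMod v) * z) h2
  simpa only [← mul_assoc, Units.inv_mul, one_mul, mul_zero] using h4

theorem sum_ind (h : (ZMod v)ˣ) :
    ∑ x : ZMod v, (if ((h⁻¹ : (ZMod v)ˣ) : ZMod v) * x ∈ D then (1 : ℤ) else 0) = D.card := by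
  have e : ∑ x : ZMod v, (if ((h⁻¹ : (ZMod v)ˣ) : ZMod v) * x ∈ D then (1 : ℤ) else 0) =
      ∑ x : ZMod v, (if x ∈ D then (1 : ℤ) else 0) :=
    Fintype.sum_equiv (Units.mulLeft h⁻¹) _ _ fun x => rfl
  rw [e, Finset.sum_boole, Finset.filter_mem_eq_inter, Finset.univ_inter]

omit [NeZero v] in
theorem exists_norm (h : Nat.Coprime D.card v) :
    ∃ c : ZMod v, ∑ x ∈ D.image (fun x => x + c), x = 0 := by
  have h3 : ((ZMod.unitOfCoprime D.card h : (ZMod v)ˣ) : ZMod v) = D.card :=
    ZMod.coe_unitOfCoprime D.card h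
  refine ⟨-((((ZMod.unitOfCoprime D.card h)⁻¹ : (ZMod v)ˣ) : ZMod v) * ∑ x ∈ D, x), ?_⟩
  rw [Finset.sum_image (fun x _ y _ h => add_right_cancel h), Finset.sum_add_distrib,
    Finset.sum_const, nsmul_eq_mul, ← h3, mul_neg, ← mul_assoc, Units.mul_inv, one_mul,
    add_neg_cancel]

end Pool.Agent.H66.CM
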