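import Pool.Agent.H66.CM.Rig
import Pool.Agent.H10.MU.Arith

/-! # The multiplier theorem with blocks (MP_3e22f2_co) -/

set_option autoImplicit false

namespace Pool.Agent.H66.CM

open Finset Pool.Agent.H58.Mult Pool.Agent.H10.MU

variable {v : ℕ} [NeZero v] {D : Finset (ZMod v)} {l : ℤ}

theorem lam_sum {lam : ℕ} (hD : IsDS D (lam : ℤ)) : (lam : ZMod v) * ∑ g : ZMod v, g = 0 := by
  have h1 : ∑ g : ZMod v, g = ∑ g : ZMod v, -g :=
    Fintype.sum_equiv (Equiv.neg _) _ _ fun x => by simp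
  rw [Finset.sum_neg_distrib] at h1
  have h2 : (2 : ZMod v) * ∑ g : ZMod v, g = 0 := by
    rw [two_mul]
    nth_rewrite 1 [h1]
    exact neg_add_cancel _
  by_cases hv2 : 2 ∣ v
  · have h3 := card_mul hD
    have h4 : 2 ∣ lam := by
      have h5 : 2 ∣ D.card * (D.card - 1) := by
        rcases Nat.even_or_odd D.card with h6 | h6
        · exact h6.two_dvd.mul_right _
        · exact ((Nat.Odd.sub_odd h6 odd_one).two_dvd).mul_left _
      rw [h3] at h5
      rcases (Nat.Prime.dvd_mul Nat.prime_two).1 h5 with h6 | h6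
      · exact h6
      · exfalso
        have := NeZero.pos v
        omega
    obtain ⟨c, rfl⟩ := h4
    push_cast
    rw [mul_comm (2 : ZMod v), mul_assoc, h2, mul_zero]
  · rw [sum_univ_id hv2, mul_zero]

theorem moment' (hl : (l : ZMod v) * ∑ g : ZMod v, g = 0) (h0 : ∑ x ∈ D, x = 0) (t : ZMod v) :
    ∑ g, (E D l t g : ZMod v) * g = 0 := by
  have h1 : ∑ g, (cnt D t g : ZMod v) * g = 0 := by
    have e : ∀ g : ZMod v, (cnt D t g : ZMod v) * g =
        ∑ x ∈ D, ∑ y ∈ D, if t * x - y = g then g else 0 := by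
      intro g
      unfold cnt
      push_cast
      rw [Finset.sum_mul]
      refine Finset.sum_congr rfl fun x _ => ?_
      rw [Finset.sum_mul]
      refine Finset.sum_congr rfl fun y _ => ?_
      split_ifs <;> simp
    simp_rw [e]
    rw [Finset.sum_comm]
    have e2 : ∀ x ∈ D, (∑ g : ZMod v, ∑ y ∈ D, if t * x - y = g then g else 0) =
        ∑ y ∈ D, (t * x - y) := by
      intro x _
      rw [Finset.sum_comm]
      refine Finset.sum_congr rfl fun y _ => ?_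
      rw [Finset.sum_ite_eq Finset.univ, if_pos (Finset.mem_univ _)]
    rw [Finset.sum_congr rfl e2]
    have e3 : ∀ x ∈ D, ∑ y ∈ D, (t * x - y) = D.card • (t * x) := by
      intro x _
      rw [Finset.sum_sub_distrib, h0, sub_zero, Finset.sum_const]
    rw [Finset.sum_congr rfl e3, ← Finset.smul_sum, ← Finset.mul_sum, h0, mul_zero, smul_zero]
  unfold E
  push_cast
  simp_rw [sub_mul]
  rw [Finset.sum_sub_distrib, h1, ← Finset.mul_sum, hl, sub_zero]

/-- The quotients of a normalised difference set are exactly invariant. -/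
theorem fixed' (hD : IsDS D l) (hl : (l : ZMod v) * ∑ g : ZMod v, g = 0) (h0 : ∑ x ∈ D, x = 0)
    {a b n1 : ℕ} (hab : 0 < a * b) (hn1 : 0 < n1)
    (hn : (D.card : ℤ) - l = ((a * b : ℕ) : ℤ) * n1) (hcop : Nat.Coprime (a * b * n1) v)
    (h u : (ZMod v)ˣ) {F : ZMod v → ℤ} (hF : ∀ g, E D l h g = n1 * F g)
    (hu : ∀ p : ℕ, p.Prime → p ∣ a → ∃ j : ℕ, (u : ZMod v) = (p : ZMod v) ^ j)
    {w : ℕ} [NeZero w] (hw : w ∣ v) (hfw : pf hw F 0 = ((a * b : ℕ) : ℤ))
    (hT : Triv hw (b ^ 2)) (y : ZMod v) : F (u * y) = F y := by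
  have hcm : Nat.Coprime (a * b) v := Nat.Coprime.coprime_mul_right hcop
  have hcn : Nat.Coprime n1 v := Nat.Coprime.coprime_mul_left hcop
  have hAC : AC F (((a * b : ℕ) : ℤ) ^ 2) := by
    refine AC.of_norm fun x => ?_
    rw [norm_quot hD hn1 hn h hF x]
    push_cast
    rfl
  have hs := sum_quot hD hn1 hn h hF
  obtain ⟨g, hg⟩ := shift_of_triv hw hab hAC hs hfw hcm u hu hT
  have hM : ∑ y, (F y : ZMod v) * y = 0 := by
    have h1 := moment' hl h0 (h : ZMod v)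
    simp_rw [hF] at h1
    push_cast at h1
    simp_rw [mul_assoc] at h1
    rw [← Finset.mul_sum] at h1
    have h3 : ((ZMod.unitOfCoprime n1 hcn : (ZMod v)ˣ) : ZMod v) = n1 :=
      ZMod.coe_unitOfCoprime n1 hcn
    rw [← h3] at h1
    have h4 := congrArg (fun z => (((ZMod.unitOfCoprime n1 hcn)⁻¹ : (ZMod v)ˣ) : ZMod v) * z) h1
    simpa only [← mul_assoc, Units.inv_mul, one_mul, mul_zero] using h4
  have h1 := fix_of_shift hs hcm (c := 0) (by rw [hM, mul_zero]) u hg y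
  simpa using h1

theorem dN_base {N : ℕ} [NeZero N] (hNv : N ∣ v) {t : (ZMod v)ˣ}
    (htw : (t : ZMod v).val ≡ 1 [MOD N]) (y : ZMod N) : dN hNv D t y = dN hNv D 1 y := by
  unfold dN pf
  refine Fintype.sum_equiv (Units.mulLeft t⁻¹) _ _ fun x => ?_
  show (if ZMod.castHom hNv (ZMod N) x = y then
      (if ((t⁻¹ : (ZMod v)ˣ) : ZMod v) * x ∈ D then (1 : ℤ) else 0) else 0) =
    (if ZMod.castHom hNv (ZMod N) (((t⁻¹ : (ZMod v)ˣ) : ZMod v) * x) = y then
      (if (((1 : (ZMod v)ˣ)⁻¹ : (ZMod v)ˣ) : ZMod v) * (((t⁻¹ : (ZMod v)ˣ) : ZMod v) * x) ∈ D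
        then (1 : ℤ) else 0) else 0)
  have h1 : ZMod.castHom hNv (ZMod N) (t : ZMod v) = 1 := by
    have h2 := (ZMod.natCast_eq_natCast_iff _ _ _).2 htw
    rw [Nat.cast_one] at h2
    rw [← h2, ← map_natCast (ZMod.castHom hNv (ZMod N)), ZMod.natCast_zmod_val]
  have h3 : ZMod.castHom hNv (ZMod N) ((t⁻¹ : (ZMod v)ˣ) : ZMod v) = 1 := by
    have h4 : ZMod.castHom hNv (ZMod N) ((t : ZMod v) * ((t⁻¹ : (ZMod v)ˣ) : ZMod v)) = 1 := by
      rw [Units.mul_inv, map_one]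
    rw [map_mul, h1, one_mul] at h4
    exact h4
  rw [map_mul, h3, one_mul, inv_one, Units.val_one, one_mul]

/-- One prime step. -/
theorem step (hD : IsDS D l) (hl : (l : ZMod v) * ∑ g : ZMod v, g = 0) (h0 : ∑ x ∈ D, x = 0)
    {a b n1 : ℕ} (hab : 0 < a * b) (hn1 : 0 < n1)
    (hn : (D.card : ℤ) - l = ((a * b : ℕ) : ℤ) * n1) (hcop : Nat.Coprime (a * b * n1) v)
    {w : ℕ} [NeZero w] (hw : w ∣ v) (hT : Triv hw (b ^ 2)) {R : ℕ} (hR : 2 ≤ R) (u : (ZMod v)ˣ)
    (hu : ∀ p : ℕ, p.Prime → p ∣ a → ∃ j : ℕ, (u : ZMod v) = (p : ZMod v) ^ j)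
    {q M : ℕ} (hq : q.Prime) [NeZero M] [NeZero (q * M)] (hN : q * M ∣ v)
    (ho : ∀ i : ℕ, 0 < i → (R - 1) * i < R * (a * b) → ¬ (u : ZMod v).val ^ i ≡ 1 [MOD q])
    (s : (ZMod v)ˣ)
    (hsp : ∀ p : ℕ, p.Prime → p ∣ n1 → ∃ j : ℕ, (s : ZMod v) = (p : ZMod v) ^ j)
    (hsw : ∀ y, dN hw D s y = dN hw D 1 y)
    (hs : ∀ y, dN ((dvd_mul_left M q).trans hN) D s y = dN ((dvd_mul_left M q).trans hN) D 1 y) :
    ∃ j, 0 < j ∧ j < R ∧ ∀ y, dN hN D (s ^ j) y = dN hN D 1 y := by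
  classical
  by_contra hcon
  push Not at hcon
  have hcn : Nat.Coprime n1 v := Nat.Coprime.coprime_mul_left hcop
  have huv : Nat.Coprime (u : ZMod v).val v := ZMod.val_coe_unit_coprime u
  have huq : Nat.Coprime (u : ZMod v).val q :=
    Nat.Coprime.coprime_dvd_right ((dvd_mul_right q M).trans hN) huv
  set L : ℤ := ((orderOf (ZMod.unitOfCoprime (u : ZMod v).val huq) : ℕ) : ℤ) with hL
  have hLR : (R : ℤ) * ((a * b : ℕ) : ℤ) ≤ (R - 1) * L := by
    by_contra h1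
    push Not at h1
    have hfact : Fact q.Prime := ⟨hq⟩
    have hne : NeZero q := ⟨hq.ne_zero⟩
    refine ho _ (orderOf_pos (ZMod.unitOfCoprime (u : ZMod v).val huq)) ?_ ?_
    · have h2 : (((R - 1) * orderOf (ZMod.unitOfCoprime (u : ZMod v).val huq) : ℕ) : ℤ) <
          ((R * (a * b) : ℕ) : ℤ) := by
        rw [Nat.cast_mul, Nat.cast_sub (by omega), Nat.cast_mul, Nat.cast_one]
        exact h1
      exact_mod_cast h2
    · rw [← ZMod.natCast_eq_natCast_iff]
      push_cast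
      have h3 : ((ZMod.unitOfCoprime (u : ZMod v).val huq ^
          orderOf (ZMod.unitOfCoprime (u : ZMod v).val huq) : (ZMod q)ˣ) :
          ZMod q) = ((1 : (ZMod q)ˣ) : ZMod q) := by rw [pow_orderOf_eq_one]
      rwa [Units.val_pow_eq_pow_val, ZMod.coe_unitOfCoprime, Units.val_one] at h3
  have hMv : M ∣ v := (dvd_mul_left M q).trans hN
  -- the values at `0`
  have key : ∀ j, 0 < j → j < R → cN hN D (s ^ j) ≤ cN hN D 1 - n1 * L := by
    intro j hj0 hjR
    have hF := div_all hD ⟨((a * b : ℕ) : ℤ), by rw [hn]; ring⟩ hcn (s ^ j)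
      (fun p hp hpn => by
        obtain ⟨i, hi⟩ := hsp p hp hpn
        exact ⟨i * j, by rw [Units.val_pow_eq_pow_val, hi, pow_mul]⟩)
    choose F hF using hF
    have hinv := fixed' hD hl h0 hab hn1 hn hcop (s ^ j) u hF hu hw
      (((le_or_fix hw hD hn1 hn (s ^ j) hF).2).2 (dN_pow hw hsw j)) hT
    have h1 := fibre_dvd hq (dvd_mul_left M q) (f := pf hN F) (u := (u : ZMod v).val)
      (pf_inv hN huv fun x => by rw [ZMod.natCast_zmod_val]; exact hinv x) huq (x0 := 0)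
      (mul_zero _)
    rw [map_zero, pf_pf] at h1
    have h2 := ((le_or_fix hMv hD hn1 hn (s ^ j) hF).2).2 (dN_pow hMv hs j)
    rw [h2] at h1
    obtain ⟨h3, h4⟩ := le_or_fix hN hD hn1 hn (s ^ j) hF
    have h5 : pf hN F 0 ≠ ((a * b : ℕ) : ℤ) := by
      intro h6
      obtain ⟨y, hy⟩ := hcon j hj0 hjR
      exact hy (h4.1 h6 y)
    have h6 : L ≤ ((a * b : ℕ) : ℤ) - pf hN F 0 :=
      Int.le_of_dvd (by have := lt_of_le_of_ne h3 h5; linarith) h1
    rw [cN_quot hN (s ^ j) hF, cN_one hN hD, hn]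
    have h7 : (n1 : ℤ) * L ≤ n1 * (((a * b : ℕ) : ℤ) - pf hN F 0) :=
      mul_le_mul_of_nonneg_left h6 (by positivity)
    linarith
  -- the Gram matrix
  let W : ZMod (q * M) → ℤ := fun y => ∑ j ∈ Finset.range R, dN hN D (s ^ j) y
  have hW1 : ∑ y, W y = R * D.card := by
    show ∑ y, ∑ j ∈ Finset.range R, dN hN D (s ^ j) y = _
    rw [Finset.sum_comm]
    simp_rw [dN_sum]
    rw [Finset.sum_const, Finset.card_range, nsmul_eq_mul]
  have hin : ∀ i j, i < R → j < R → ∑ y, dN hN D (s ^ i) y * dN hN D (s ^ j) y ≤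
      cN hN D 1 - n1 * L + if i = j then n1 * L else 0 := by
    intro i j hi hj
    rcases lt_trichotomy i j with h | h | h
    · have e1 : ∑ y, dN hN D (s ^ i) y * dN hN D (s ^ j) y =
          ∑ y, dN hN D (s ^ j) y * dN hN D (s ^ i) y :=
        Finset.sum_congr rfl fun y _ => mul_comm _ _
      rw [e1, inner, if_neg h.ne, add_zero]
      have e2 : (s ^ i)⁻¹ * s ^ j = s ^ (j - i) := by
        rw [pow_sub s h.le, mul_comm]
      rw [e2]
      exact key _ (by omega) (by omega)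
    · subst h
      rw [inner, if_pos rfl, inv_mul_cancel]
      linarith
    · rw [inner, if_neg h.ne', add_zero]
      have e2 : (s ^ j)⁻¹ * s ^ i = s ^ (i - j) := by
        rw [pow_sub s h.le, mul_comm]
      rw [e2]
      exact key _ (by omega) (by omega)
  have hW2 : ∑ y, W y ^ 2 ≤ (R : ℤ) ^ 2 * (cN hN D 1 - n1 * L) + R * (n1 * L) := by
    have e1 : ∑ y, W y ^ 2 = ∑ i ∈ Finset.range R, ∑ j ∈ Finset.range R,
        ∑ y, dN hN D (s ^ i) y * dN hN D (s ^ j) y := by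
      have e2 : ∀ y, W y ^ 2 = ∑ i ∈ Finset.range R, ∑ j ∈ Finset.range R,
          dN hN D (s ^ i) y * dN hN D (s ^ j) y := by
        intro y
        rw [sq]
        exact Finset.sum_mul_sum _ _ _ _
      simp_rw [e2]
      rw [Finset.sum_comm]
      refine Finset.sum_congr rfl fun i _ => ?_
      rw [Finset.sum_comm]
    rw [e1]
    have e3 : ∑ i ∈ Finset.range R, ∑ j ∈ Finset.range R,
        ∑ y, dN hN D (s ^ i) y * dN hN D (s ^ j) y ≤
        ∑ i ∈ Finset.range R, ∑ j ∈ Finset.range R,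
          (cN hN D 1 - n1 * L + if i = j then n1 * L else 0) := by
      refine Finset.sum_le_sum fun i hi => Finset.sum_le_sum fun j hj => ?_
      exact hin i j (Finset.mem_range.1 hi) (Finset.mem_range.1 hj)
    refine e3.trans (le_of_eq ?_)
    have e4 : ∀ i ∈ Finset.range R, ∑ j ∈ Finset.range R,
        (cN hN D 1 - n1 * L + if i = j then (n1 : ℤ) * L else 0) =
        R * (cN hN D 1 - n1 * L) + n1 * L := by
      intro i hi
      rw [Finset.sum_add_distrib, Finset.sum_const, Finset.card_range, nsmul_eq_mul,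
        Finset.sum_ite_eq, if_pos hi]
    rw [Finset.sum_congr rfl e4, Finset.sum_const, Finset.card_range, nsmul_eq_mul]
    ring
  have hCS : (∑ y, W y) ^ 2 ≤ ((q * M : ℕ) : ℤ) * ∑ y, W y ^ 2 := by
    have h1 := sq_sum_le_card_mul_sum_sq (s := (Finset.univ : Finset (ZMod (q * M)))) (f := W)
    rwa [Finset.card_univ, ZMod.card] at h1
  -- the contradiction
  have hk := card_sq hD
  have hkN := kN_mul (v := v) hN
  rw [hW1] at hCS
  have hNpos : (0 : ℤ) < ((q * M : ℕ) : ℤ) := by exact_mod_cast NeZero.pos (q * M)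
  have h1 : ((R : ℤ) * D.card) ^ 2 ≤ ((q * M : ℕ) : ℤ) *
      ((R : ℤ) ^ 2 * (cN hN D 1 - n1 * L) + R * (n1 * L)) :=
    hCS.trans (mul_le_mul_of_nonneg_left hW2 hNpos.le)
  rw [cN_one hN hD, mul_pow, hk, hn] at h1
  obtain ⟨N, hNd⟩ : ∃ N : ℤ, N = ((q * M : ℕ) : ℤ) := ⟨_, rfl⟩
  obtain ⟨K, hKd⟩ : ∃ K : ℤ, K = kN (v := v) hN := ⟨_, rfl⟩
  obtain ⟨m, hmd⟩ : ∃ m : ℤ, m = ((a * b : ℕ) : ℤ) := ⟨_, rfl⟩
  rw [← hNd, ← hKd, ← hmd] at h1
  rw [← hKd, ← hNd] at hkN
  rw [← hmd] at hLR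
  rw [← hNd] at hNpos
  have hmpos : 0 < m := by rw [hmd]; exact_mod_cast hab
  have hn1' : (0 : ℤ) < n1 := by exact_mod_cast hn1
  have hR' : (0 : ℤ) < R := by exact_mod_cast (by omega : 0 < R)
  -- h1 : R ^ 2 (m n1 + l v) ≤ N (R ^ 2 (m n1 + l K - n1 L) + R n1 L)
  have h2 : (R : ℤ) * n1 * (R * m + N * ((R - 1) * L - R * m)) ≤ 0 := by
    have e1 : (R : ℤ) ^ 2 * (m * n1 + l * v) - N * ((R : ℤ) ^ 2 * (m * n1 + l * K - n1 * L) +
        R * (n1 * L)) = (R : ℤ) * n1 * (R * m + N * ((R - 1) * L - R * m)) := by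
      rw [← hkN]
      ring
    rw [← e1]
    linarith
  have h3 : 0 ≤ N * ((R - 1) * L - R * m) := mul_nonneg hNpos.le (by linarith)
  have h4 : 0 < (R : ℤ) * n1 * (R * m + N * ((R - 1) * L - R * m)) := by
    have h5 : 0 < (R : ℤ) * m := mul_pos hR' hmpos
    exact mul_pos (mul_pos hR' hn1') (by linarith)
  linarith

/-- The induction over the quotients. -/
theorem levels (hD : IsDS D l) (hl : (l : ZMod v) * ∑ g : ZMod v, g = 0) (h0 : ∑ x ∈ D, x = 0)
    {a b n1 : ℕ} (hab : 0 < a * b) (hn1 : 0 < n1)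
    (hn : (D.card : ℤ) - l = ((a * b : ℕ) : ℤ) * n1) (hcop : Nat.Coprime (a * b * n1) v)
    {w : ℕ} [NeZero w] (hwv : w ∣ v) (hT : Triv hwv (b ^ 2)) {R : ℕ} (hR : 2 ≤ R) (t : (ZMod v)ˣ)
    (htp : ∀ p : ℕ, p.Prime → p ∣ n1 → ∃ j : ℕ, (t : ZMod v) = (p : ZMod v) ^ j)
    (htw : (t : ZMod v).val ≡ 1 [MOD w]) (d : ℕ) :
    ∀ (N : ℕ) (_ : NeZero N) (hN : N ∣ v), N = d * w →
      (∀ q : ℕ, q.Prime → q ∣ d → ∃ u : (ZMod v)ˣ,
        (∀ p : ℕ, p.Prime → p ∣ a → ∃ j : ℕ, (u : ZMod v) = (p : ZMod v) ^ j) ∧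
        ∀ i : ℕ, 0 < i → (R - 1) * i < R * (a * b) → ¬ (u : ZMod v).val ^ i ≡ 1 [MOD q]) →
      ∃ i, 0 < i ∧ i ≤ (R - 1) ^ ArithmeticFunction.cardFactors d ∧
        (∀ p : ℕ, p.Prime → p ∣ i → p < R) ∧ ∀ y, dN hN D (t ^ i) y = dN hN D 1 y := by
  classical
  induction d using induction_on_primes with
  | zero =>
    intro N hN _ h
    rw [zero_mul] at h
    exact absurd h (NeZero.ne N)
  | one =>
    intro N hN hNv h _
    rw [one_mul] at h
    subst h
    refine ⟨1, one_pos, ?_, ?_, ?_⟩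
    · rw [ArithmeticFunction.cardFactors_one, pow_zero]
    · intro p hp h1
      exact absurd (Nat.dvd_one.1 h1) hp.one_lt.ne'
    · intro y
      rw [pow_one]
      exact dN_base hNv htw y
  | prime_mul q c hq ih =>
    intro N hN hNv h hord
    have hN' : N = q * (c * w) := by rw [h]; ring
    subst hN'
    have hc : c ≠ 0 := by
      rintro rfl
      exact NeZero.ne (q * (0 * w)) (by ring)
    have hM : NeZero (c * w) := ⟨Nat.mul_ne_zero hc (NeZero.ne w)⟩
    obtain ⟨i, hi0, hile, hip, hi⟩ := ih (c * w) hM ((dvd_mul_left (c * w) q).trans hNv) rfl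
      (fun q' hq' hqc => hord q' hq' (hqc.mul_left q))
    obtain ⟨u, hu, ho⟩ := hord q hq (dvd_mul_right _ _)
    obtain ⟨j, hj0, hjR, hj⟩ := step hD hl h0 hab hn1 hn hcop hwv hT hR u hu hq hNv ho (t ^ i)
      (fun p hp hpn => by
        obtain ⟨e, he⟩ := htp p hp hpn
        exact ⟨e * i, by rw [Units.val_pow_eq_pow_val, he, pow_mul]⟩)
      (dN_pow hwv (dN_base hwv htw) i) hi
    refine ⟨i * j, Nat.mul_pos hi0 hj0, ?_, ?_, ?_⟩
    · rw [ArithmeticFunction.cardFactors_mul hq.ne_zero hc,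
        ArithmeticFunction.cardFactors_apply_prime hq, add_comm, pow_succ]
      exact Nat.mul_le_mul hile (by omega)
    · intro p hp hpd
      rcases (Nat.Prime.dvd_mul hp).1 hpd with h1 | h1
      · exact hip p hp h1
      · exact lt_of_le_of_lt (Nat.le_of_dvd hj0 h1) hjR
    · intro y
      rw [pow_mul]
      exact hj y

/-- **The multiplier theorem with blocks.** -/
theorem block_mult {lam : ℕ} (hD : IsDS D (lam : ℤ))
    {a b n1 : ℕ} (hn : D.card = lam + a * b * n1) (hpos : 0 < a * b * n1)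
    (hcop : Nat.Coprime (a * b * n1) v) {w R : ℕ} (hw : w ∣ v)
    (hb : Rigid v (v / w) (b ^ 2)) (hR : 2 ≤ R)
    (hord : ∀ q : ℕ, q.Prime → q ∣ v / w → ∃ u : (ZMod v)ˣ,
      (∀ p : ℕ, p.Prime → p ∣ a → ∃ j : ℕ, (u : ZMod v) = (p : ZMod v) ^ j) ∧
      ∀ i : ℕ, 0 < i → (R - 1) * i < R * (a * b) → ¬ (u : ZMod v).val ^ i ≡ 1 [MOD q])
    (t : (ZMod v)ˣ)
    (htp : ∀ p : ℕ, p.Prime → p ∣ n1 → ∃ j : ℕ, (t : ZMod v) = (p : ZMod v) ^ j)
    (htw : (t : ZMod v).val ≡ 1 [MOD w]) :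
    ∃ i, 0 < i ∧ i ≤ (R - 1) ^ ArithmeticFunction.cardFactors (v / w) ∧ i ∣ orderOf t ∧
      (∀ p : ℕ, p.Prime → p ∣ i → p < R) ∧ IsMult D (t ^ i) := by
  classical
  have hab : 0 < a * b := Nat.pos_of_mul_pos_right hpos
  have hn1 : 0 < n1 := Nat.pos_of_mul_pos_left hpos
  have hb0 : 0 < b := Nat.pos_of_mul_pos_left hab
  have hv0 : v ≠ 0 := NeZero.ne v
  have hw0 : w ≠ 0 := by
    rintro rfl
    exact hv0 (Nat.eq_zero_of_zero_dvd hw)
  have hcb : Nat.Coprime (b ^ 2) v :=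
    (Nat.Coprime.coprime_mul_left (Nat.Coprime.coprime_mul_right hcop)).pow_left 2
  have hwn : NeZero w := ⟨hw0⟩
  have hT : Triv hw (b ^ 2) := triv_of_rigid hw hb (by positivity) hcb
  have hk := card_sq hD
  -- the size is prime to `v`
  have hkv : Nat.Coprime D.card v := by
    rw [Nat.coprime_iff_gcd_eq_one]
    by_contra hne
    obtain ⟨p, hp, hpg⟩ := Nat.exists_prime_and_dvd hne
    have h1 : p ∣ D.card := hpg.trans (Nat.gcd_dvd_left _ _)
    have h2 : p ∣ v := hpg.trans (Nat.gcd_dvd_right _ _)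
    have h3 : (p : ℤ) ∣ ((a * b * n1 : ℕ) : ℤ) := by
      have h4 : ((a * b * n1 : ℕ) : ℤ) = (D.card : ℤ) ^ 2 - lam * v := by
        rw [hk, hn]
        push_cast
        ring
      rw [h4]
      exact dvd_sub (dvd_pow (by exact_mod_cast h1) two_ne_zero)
        ((by exact_mod_cast h2 : (p : ℤ) ∣ (v : ℤ)).mul_left _)
    have h4 : p ∣ a * b * n1 := by exact_mod_cast h3
    exact Nat.not_coprime_of_dvd_of_dvd hp.one_lt h4 h2 hcop
  obtain ⟨c, hc⟩ := exists_norm hkv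
  have hD' := isDS_image_add hD c
  have hcard : (D.image fun x => x + c).card = D.card :=
    Finset.card_image_of_injective _ (add_left_injective c)
  have hn' : (((D.image fun x => x + c).card : ℕ) : ℤ) - lam = ((a * b : ℕ) : ℤ) * n1 := by
    rw [hcard, hn]
    push_cast
    ring
  have hl : (((lam : ℤ)) : ZMod v) * ∑ g : ZMod v, g = 0 := by
    have := lam_sum hD
    exact_mod_cast this
  obtain ⟨i, hi0, hile, hip, hi⟩ := levels hD' hl hc hab hn1 hn' hcop hw hT hR t htp htw (v / w)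
    v inferInstance dvd_rfl (Nat.div_mul_cancel hw).symm hord
  -- multipliers from the top level
  have hmul : ∀ h : (ZMod v)ˣ, (∀ y, dN (dvd_refl v) (D.image fun x => x + c) h y =
      dN (dvd_refl v) (D.image fun x => x + c) 1 y) → IsMult D h := by
    intro h hh
    apply isMult_of_shift c h
    refine ⟨0, ?_⟩
    have key : ∀ x : ZMod v, ((h⁻¹ : (ZMod v)ˣ) : ZMod v) * x ∈ (D.image fun x => x + c) ↔
        x ∈ (D.image fun x => x + c) := by
      intro x
      have h1 := hh x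
      unfold dN pf at h1
      have e : ∀ z : ZMod v, ZMod.castHom (dvd_refl v) (ZMod v) z = z := by
        intro z
        rw [ZMod.castHom_self]
        rfl
      simp only [e, Finset.sum_ite_eq', Finset.mem_univ, if_true, inv_one, Units.val_one,
        one_mul] at h1
      by_cases h2 : x ∈ (D.image fun x => x + c)
      · rw [if_pos h2] at h1
        by_contra h3
        have h4 : ¬ ((h⁻¹ : (ZMod v)ˣ) : ZMod v) * x ∈ (D.image fun x => x + c) := by
          intro h5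
          exact h3 ⟨fun _ => h2, fun _ => h5⟩
        rw [if_neg h4] at h1
        norm_num at h1
      · rw [if_neg h2] at h1
        constructor
        · intro h3
          rw [if_pos h3] at h1
          norm_num at h1
        · intro h3
          exact absurd h3 h2
    ext y
    rw [Finset.mem_image, Finset.mem_image]
    constructor
    · rintro ⟨x, hx, rfl⟩
      refine ⟨h * x, ?_, add_zero _⟩
      rw [← key, ← mul_assoc, Units.inv_mul, one_mul]
      exact hx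
    · rintro ⟨x, hx, rfl⟩
      refine ⟨((h⁻¹ : (ZMod v)ˣ) : ZMod v) * x, (key x).2 hx, ?_⟩
      rw [← mul_assoc, Units.mul_inv, one_mul, add_zero]
  refine ⟨Nat.gcd i (orderOf t), Nat.gcd_pos_of_pos_left _ hi0,
    (Nat.le_of_dvd hi0 (Nat.gcd_dvd_left _ _)).trans hile, Nat.gcd_dvd_right _ _,
    fun p hp hpg => hip p hp (hpg.trans (Nat.gcd_dvd_left _ _)), ?_⟩
  -- `t ^ gcd` is a power of `t ^ i`
  obtain ⟨e, he⟩ : ∃ e : ℕ, t ^ Nat.gcd i (orderOf t) = (t ^ i) ^ e := by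
    have h1 : t ^ Nat.gcd i (orderOf t) ∈ Subgroup.zpowers (t ^ i) := by
      rw [Subgroup.mem_zpowers_iff]
      refine ⟨Nat.gcdA i (orderOf t), ?_⟩
      have h2 := Nat.gcd_eq_gcd_ab i (orderOf t)
      have h3 : t ^ ((Nat.gcd i (orderOf t) : ℕ) : ℤ) =
          (t ^ i) ^ (Nat.gcdA i (orderOf t)) := by
        rw [h2, zpow_add, zpow_mul, zpow_mul, zpow_natCast, zpow_natCast, pow_orderOf_eq_one,
          one_zpow, mul_one]
      rw [← h3, zpow_natCast]
    obtain ⟨e, he⟩ := (mem_powers_iff_mem_zpowers (x := t ^ i)).2 h1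
    exact ⟨e, he.symm⟩
  rw [he]
  exact hmul _ (dN_pow _ hi e)

end Pool.Agent.H66.CM
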