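import Mathlib

/-! # The recursive condition (MP_3e22f2_co) -/

set_option autoImplicit false

namespace Pool.Agent.H66.CM

/-- `Rigid v d 1`; and `Rigid v d (a * b)` if `Rigid v d (b ^ 2)` and, for every prime `q` dividing
`d`, some unit `u` modulo `v` that is, modulo `v`, a power of every prime dividing `a` has order at
least `2 a b` modulo `q`. -/
inductive Rigid (v d : ℕ) : ℕ → Prop
  | one : Rigid v d 1
  | mul (a b : ℕ)
      (h : ∀ q : ℕ, q.Prime → q ∣ d → ∃ u : (ZMod v)ˣ,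
        (∀ p : ℕ, p.Prime → p ∣ a → ∃ j : ℕ, (u : ZMod v) = (p : ZMod v) ^ j) ∧
        ∀ i : ℕ, 0 < i → i < 2 * (a * b) → ¬ (u : ZMod v).val ^ i ≡ 1 [MOD q])
      (hb : Rigid v d (b ^ 2)) : Rigid v d (a * b)

end Pool.Agent.H66.CM
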