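import Pool.Agent.H66.CM.Base

/-! # Images in the quotients of `ZMod v` (MP_3e22f2_co) -/

set_option autoImplicit false

namespace Pool.Agent.H66.CM

open Finset Pool.Agent.H58.Mult Pool.Agent.H10.MU

variable {v : ℕ} [NeZero v] {D : Finset (ZMod v)} {l : ℤ}

/-- `h D` in `ZMod N`. -/
def dN {N : ℕ} (hN : N ∣ v) (D : Finset (ZMod v)) (h : (ZMod v)ˣ) : ZMod N → ℤ :=
  pf hN fun x => if ((h⁻¹ : (ZMod v)ˣ) : ZMod v) * x ∈ D then (1 : ℤ) else 0

/-- the number of differences of `D` and `h D` which are `0` in `ZMod N` -/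
def cN {N : ℕ} (hN : N ∣ v) (D : Finset (ZMod v)) (h : (ZMod v)ˣ) : ℤ :=
  ∑ z : ZMod v, if ZMod.castHom hN (ZMod N) z = 0 then cnt D (h : ZMod v) z else 0

/-- the order of the kernel -/
def kN {N : ℕ} (hN : N ∣ v) : ℤ :=
  ∑ z : ZMod v, if ZMod.castHom hN (ZMod N) z = 0 then 1 else 0

theorem pf_mul {N : ℕ} [NeZero N] (hN : N ∣ v) (f g : ZMod v → ℤ) :
    ∑ y, pf hN f y * pf hN g y =
      ∑ z : ZMod v, if ZMod.castHom hN (ZMod N) z = 0 then ∑ x, f (x + z) * g x else 0 := by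
  classical
  have h1 : ∀ y, pf hN f y * pf hN g y =
      ∑ x, if ZMod.castHom hN (ZMod N) x = y then
        (∑ x', if ZMod.castHom hN (ZMod N) x' = y then f x' else 0) * g x else 0 := by
    intro y
    unfold pf
    rw [Finset.mul_sum]
    refine Finset.sum_congr rfl fun x _ => ?_
    split_ifs <;> simp
  simp_rw [h1]
  rw [Finset.sum_comm]
  have h2 : ∀ x : ZMod v, (∑ y, if ZMod.castHom hN (ZMod N) x = y then
      (∑ x', if ZMod.castHom hN (ZMod N) x' = y then f x' else 0) * g x else 0) =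
      ∑ z : ZMod v, if ZMod.castHom hN (ZMod N) z = 0 then f (x + z) * g x else 0 := by
    intro x
    rw [Finset.sum_ite_eq Finset.univ, if_pos (Finset.mem_univ _), Finset.sum_mul]
    symm
    refine Fintype.sum_equiv (Equiv.addLeft x) _ _ fun z => ?_
    show (if ZMod.castHom hN (ZMod N) z = 0 then f (x + z) * g x else 0) =
      (if ZMod.castHom hN (ZMod N) (x + z) = ZMod.castHom hN (ZMod N) x then f (x + z) else 0) * g x
    rw [map_add]
    by_cases hz : ZMod.castHom hN (ZMod N) z = 0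
    · rw [if_pos hz, if_pos (by rw [hz, add_zero])]
    · rw [if_neg hz, if_neg (by simpa using hz), zero_mul]
  simp_rw [h2]
  rw [Finset.sum_comm]
  refine Finset.sum_congr rfl fun z _ => ?_
  split_ifs
  · rfl
  · simp

theorem ind_mul (h h' : (ZMod v)ˣ) (z : ZMod v) :
    ∑ x : ZMod v, (if ((h⁻¹ : (ZMod v)ˣ) : ZMod v) * (x + z) ∈ D then (1 : ℤ) else 0) *
      (if ((h'⁻¹ : (ZMod v)ˣ) : ZMod v) * x ∈ D then (1 : ℤ) else 0) =
      cnt D ((h'⁻¹ * h : (ZMod v)ˣ) : ZMod v) (((h'⁻¹ : (ZMod v)ˣ) : ZMod v) * z) := by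
  classical
  have e : ∑ x : ZMod v, (if ((h⁻¹ : (ZMod v)ˣ) : ZMod v) * (x + z) ∈ D then (1 : ℤ) else 0) *
      (if ((h'⁻¹ : (ZMod v)ˣ) : ZMod v) * x ∈ D then (1 : ℤ) else 0) =
      ∑ y : ZMod v, (if y ∈ D then (1 : ℤ) else 0) *
        (if ((h'⁻¹ * h : (ZMod v)ˣ) : ZMod v) * y - ((h'⁻¹ : (ZMod v)ˣ) : ZMod v) * z ∈ D then
          (1 : ℤ) else 0) := by
    refine Fintype.sum_equiv ((Equiv.addRight z).trans (Units.mulLeft h⁻¹)) _ _ fun x => ?_
    have h1 : ((h'⁻¹ * h : (ZMod v)ˣ) : ZMod v) * (((h⁻¹ : (ZMod v)ˣ) : ZMod v) * (x + z)) -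
        ((h'⁻¹ : (ZMod v)ˣ) : ZMod v) * z = ((h'⁻¹ : (ZMod v)ˣ) : ZMod v) * x := by
      rw [Units.val_mul, mul_assoc, ← mul_assoc (h : ZMod v), Units.mul_inv, one_mul]
      ring
    show _ = (if ((h⁻¹ : (ZMod v)ˣ) : ZMod v) * (x + z) ∈ D then (1 : ℤ) else 0) *
      (if ((h'⁻¹ * h : (ZMod v)ˣ) : ZMod v) * (((h⁻¹ : (ZMod v)ˣ) : ZMod v) * (x + z)) -
        ((h'⁻¹ : (ZMod v)ˣ) : ZMod v) * z ∈ D then (1 : ℤ) else 0)
    rw [h1]
  rw [e, cnt_eq, Finset.card_filter]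
  simp only [Nat.cast_sum, Nat.cast_ite, Nat.cast_one, Nat.cast_zero]
  rw [← Finset.sum_filter_add_sum_filter_not Finset.univ (fun y => y ∈ D)]
  have e2 : ∑ x ∈ Finset.univ.filter (fun y => ¬ y ∈ D),
      (if x ∈ D then (1 : ℤ) else 0) *
        (if ((h'⁻¹ * h : (ZMod v)ˣ) : ZMod v) * x - ((h'⁻¹ : (ZMod v)ˣ) : ZMod v) * z ∈ D then
          (1 : ℤ) else 0) = 0 := by
    refine Finset.sum_eq_zero fun x hx => ?_
    rw [if_neg (Finset.mem_filter.1 hx).2, zero_mul]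
  rw [e2, add_zero, Finset.filter_mem_eq_inter, Finset.univ_inter]
  refine Finset.sum_congr rfl fun x hx => ?_
  rw [if_pos hx, one_mul]

theorem inner {N : ℕ} [NeZero N] (hN : N ∣ v) (h h' : (ZMod v)ˣ) :
    ∑ y, dN hN D h y * dN hN D h' y = cN hN D (h'⁻¹ * h) := by
  classical
  unfold dN cN
  rw [pf_mul]
  simp_rw [ind_mul]
  refine Fintype.sum_equiv (Units.mulLeft h'⁻¹) _ _ fun z => ?_
  show (if ZMod.castHom hN (ZMod N) z = 0 then _ else 0) =
    (if ZMod.castHom hN (ZMod N) (((h'⁻¹ : (ZMod v)ˣ) : ZMod v) * z) = 0 then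
      cnt D ((h'⁻¹ * h : (ZMod v)ˣ) : ZMod v) (((h'⁻¹ : (ZMod v)ˣ) : ZMod v) * z) else 0)
  by_cases hz : ZMod.castHom hN (ZMod N) z = 0
  · rw [if_pos hz, if_pos (by rw [map_mul, hz, mul_zero])]
  · rw [if_neg hz, if_neg]
    intro h1
    apply hz
    have h2 := congrArg (fun x => ZMod.castHom hN (ZMod N) (h' : ZMod v) * x) h1
    simp only [mul_zero] at h2
    rw [← map_mul, ← mul_assoc, Units.mul_inv, one_mul] at h2
    exact h2

theorem dN_sum {N : ℕ} [NeZero N] (hN : N ∣ v) (h : (ZMod v)ˣ) :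
    ∑ y, dN hN D h y = D.card := by
  unfold dN
  rw [pf_sum]
  exact sum_ind h

theorem kN_mul {N : ℕ} [NeZero N] (hN : N ∣ v) : kN (v := v) hN * N = v := by
  classical
  have h1 : ∑ y, pf hN (fun _ : ZMod v => (1 : ℤ)) y = v := by
    rw [pf_sum]
    simp
  have h2 : ∀ y, pf hN (fun _ : ZMod v => (1 : ℤ)) y = kN (v := v) hN := by
    intro y
    obtain ⟨x0, hx0⟩ := ZMod.castHom_surjective hN y
    unfold pf kN
    symm
    refine Fintype.sum_equiv (Equiv.addRight x0) _ _ fun z => ?_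
    show (if ZMod.castHom hN (ZMod N) z = 0 then (1 : ℤ) else 0) =
      (if ZMod.castHom hN (ZMod N) (z + x0) = y then 1 else 0)
    rw [map_add, hx0]
    by_cases hz : ZMod.castHom hN (ZMod N) z = 0
    · rw [if_pos hz, if_pos (by rw [hz, zero_add])]
    · rw [if_neg hz, if_neg (by simpa using hz)]
  simp_rw [h2] at h1
  rw [Finset.sum_const, Finset.card_univ, ZMod.card, nsmul_eq_mul] at h1
  rw [mul_comm]
  exact h1

theorem cN_one {N : ℕ} (hN : N ∣ v) (hD : IsDS D l) :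
    cN hN D 1 = (D.card : ℤ) - l + l * kN (v := v) hN := by
  classical
  unfold cN kN
  rw [← Finset.add_sum_erase Finset.univ _ (Finset.mem_univ (0 : ZMod v)),
    ← Finset.add_sum_erase Finset.univ (fun z : ZMod v =>
      if ZMod.castHom hN (ZMod N) z = 0 then (1 : ℤ) else 0) (Finset.mem_univ (0 : ZMod v))]
  simp only [Units.val_one]
  rw [if_pos (map_zero _), if_pos (map_zero _), cnt_one_zero, mul_add, Finset.mul_sum]
  have h1 : ∀ z ∈ Finset.univ.erase (0 : ZMod v),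
      (if ZMod.castHom hN (ZMod N) z = 0 then cnt D 1 z else 0) =
        l * (if ZMod.castHom hN (ZMod N) z = 0 then (1 : ℤ) else 0) := by
    intro z hz
    rw [hD z (Finset.mem_erase.1 hz).1]
    split_ifs <;> simp
  rw [Finset.sum_congr rfl h1]
  ring

theorem cN_quot {N : ℕ} (hN : N ∣ v) {n1 : ℕ} (h : (ZMod v)ˣ) {F : ZMod v → ℤ}
    (hF : ∀ g, E D l h g = n1 * F g) :
    cN hN D h = l * kN (v := v) hN + n1 * pf hN F 0 := by
  classical
  unfold cN kN pf
  rw [Finset.mul_sum, Finset.mul_sum, ← Finset.sum_add_distrib]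
  refine Finset.sum_congr rfl fun z _ => ?_
  have h1 : cnt D (h : ZMod v) z = l + n1 * F z := by
    rw [← hF]
    unfold E
    ring
  rw [h1]
  split_ifs <;> simp

/-- The value at `0` of the quotient is at most `m`, with equality only if `h` fixes the image. -/
theorem le_or_fix {N : ℕ} [NeZero N] (hN : N ∣ v) (hD : IsDS D l) {m n1 : ℕ} (hn1 : 0 < n1)
    (hn : (D.card : ℤ) - l = m * n1) (h : (ZMod v)ˣ) {F : ZMod v → ℤ}
    (hF : ∀ g, E D l h g = n1 * F g) :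
    pf hN F 0 ≤ m ∧ (pf hN F 0 = m ↔ ∀ y, dN hN D h y = dN hN D 1 y) := by
  have e1 : ∑ y, (dN hN D h y - dN hN D 1 y) ^ 2 = 2 * (n1 * (m - pf hN F 0)) := by
    have h1 : ∀ y, (dN hN D h y - dN hN D 1 y) ^ 2 =
        dN hN D h y * dN hN D h y - 2 * (dN hN D h y * dN hN D 1 y) +
          dN hN D 1 y * dN hN D 1 y := by
      intro y
      ring
    simp_rw [h1]
    rw [Finset.sum_add_distrib, Finset.sum_sub_distrib, ← Finset.mul_sum, inner, inner, inner,
      inv_mul_cancel, inv_mul_cancel, inv_one, one_mul, cN_quot hN h hF, cN_one hN hD, hn]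
    ring
  have h0 : 0 ≤ ∑ y, (dN hN D h y - dN hN D 1 y) ^ 2 := Finset.sum_nonneg fun _ _ => sq_nonneg _
  have hn1' : (0 : ℤ) < n1 := by exact_mod_cast hn1
  constructor
  · rw [e1] at h0
    by_contra hcon
    push Not at hcon
    have : (n1 : ℤ) * (m - pf hN F 0) < 0 := mul_neg_of_pos_of_neg hn1' (by linarith)
    linarith
  · constructor
    · intro h2
      rw [h2, sub_self, mul_zero, mul_zero] at e1
      intro y
      have h3 := (Finset.sum_eq_zero_iff_of_nonneg (fun y _ => sq_nonneg _)).1 e1 y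
        (Finset.mem_univ y)
      have h4 := pow_eq_zero_iff (two_ne_zero) |>.1 h3
      linarith
    · intro h2
      have h3 : ∑ y, (dN hN D h y - dN hN D 1 y) ^ 2 = 0 :=
        Finset.sum_eq_zero fun y _ => by rw [h2 y, sub_self]; ring
      rw [e1] at h3
      have h4 : (m : ℤ) - pf hN F 0 = 0 := by
        rcases mul_eq_zero.1 h3 with h5 | h5
        · norm_num at h5
        · rcases mul_eq_zero.1 h5 with h6 | h6
          · exact absurd h6 hn1'.ne'
          · exact h6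
      linarith

theorem pf_twist {N : ℕ} [NeZero N] (hN : N ∣ v) (f : ZMod v → ℤ) (h : (ZMod v)ˣ) (y : ZMod N) :
    pf hN (fun x => f (((h⁻¹ : (ZMod v)ˣ) : ZMod v) * x)) y =
      pf hN f (ZMod.castHom hN (ZMod N) ((h⁻¹ : (ZMod v)ˣ) : ZMod v) * y) := by
  classical
  unfold pf
  refine Fintype.sum_equiv (Units.mulLeft h⁻¹) _ _ fun x => ?_
  show (if ZMod.castHom hN (ZMod N) x = y then _ else 0) =
    (if ZMod.castHom hN (ZMod N) (((h⁻¹ : (ZMod v)ˣ) : ZMod v) * x) =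
      ZMod.castHom hN (ZMod N) ((h⁻¹ : (ZMod v)ˣ) : ZMod v) * y then
        f (((h⁻¹ : (ZMod v)ˣ) : ZMod v) * x) else 0)
  rw [map_mul]
  by_cases hx : ZMod.castHom hN (ZMod N) x = y
  · rw [if_pos hx, if_pos (by rw [hx])]
  · rw [if_neg hx, if_neg]
    intro h1
    apply hx
    have h2 := congrArg (fun x => ZMod.castHom hN (ZMod N) (h : ZMod v) * x) h1
    simp only [← mul_assoc] at h2
    rw [← map_mul, Units.mul_inv, map_one, one_mul, one_mul] at h2
    exact h2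

theorem pf_comp {N : ℕ} [NeZero N] (hN : N ∣ v) {f f' : ZMod v → ℤ}
    (hff : ∀ y, pf hN f y = pf hN f' y) (h : (ZMod v)ˣ) (y : ZMod N) :
    pf hN (fun x => f (((h⁻¹ : (ZMod v)ˣ) : ZMod v) * x)) y =
      pf hN (fun x => f' (((h⁻¹ : (ZMod v)ˣ) : ZMod v) * x)) y := by
  rw [pf_twist, pf_twist, hff]

theorem dN_mul {N : ℕ} [NeZero N] (hN : N ∣ v) {h h' : (ZMod v)ˣ}
    (hh : ∀ y, dN hN D h y = dN hN D 1 y) (hh' : ∀ y, dN hN D h' y = dN hN D 1 y) (y : ZMod N) :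
    dN hN D (h * h') y = dN hN D 1 y := by
  have e1 : ∀ g : (ZMod v)ˣ, dN hN D (h * g) y = pf hN (fun x =>
      (fun x => if ((g⁻¹ : (ZMod v)ˣ) : ZMod v) * x ∈ D then (1 : ℤ) else 0)
        (((h⁻¹ : (ZMod v)ˣ) : ZMod v) * x)) y := by
    intro g
    unfold dN
    congr 1
    funext x
    rw [mul_inv_rev, Units.val_mul, mul_assoc]
  rw [e1 h', pf_comp hN (f' := fun x => if (((1 : (ZMod v)ˣ)⁻¹ : (ZMod v)ˣ) : ZMod v) * x ∈ D
    then (1 : ℤ) else 0) hh' h y, ← e1 1, mul_one]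
  exact hh y

theorem dN_pow {N : ℕ} [NeZero N] (hN : N ∣ v) {h : (ZMod v)ˣ}
    (hh : ∀ y, dN hN D h y = dN hN D 1 y) (j : ℕ) (y : ZMod N) :
    dN hN D (h ^ j) y = dN hN D 1 y := by
  induction j generalizing y with
  | zero => rw [pow_zero]
  | succ j ih =>
    rw [pow_succ]
    exact dN_mul hN ih hh y

theorem pf_pf {N M : ℕ} [NeZero N] [NeZero M] (hN : N ∣ v) (hM : M ∣ N) (f : ZMod v → ℤ)
    (y : ZMod M) : pf hM (pf hN f) y = pf (hM.trans hN) f y := by
  classical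
  unfold pf
  have h1 : ∀ x : ZMod N, (if ZMod.castHom hM (ZMod M) x = y then
      ∑ z : ZMod v, (if ZMod.castHom hN (ZMod N) z = x then f z else 0) else 0) =
      ∑ z : ZMod v, if ZMod.castHom hN (ZMod N) z = x then
        (if ZMod.castHom hM (ZMod M) x = y then f z else 0) else 0 := by
    intro x
    by_cases hx : ZMod.castHom hM (ZMod M) x = y
    · simp only [if_pos hx]
    · simp only [if_neg hx]
      exact (Finset.sum_eq_zero fun z _ => ite_self _).symm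
  simp_rw [h1]
  rw [Finset.sum_comm]
  refine Finset.sum_congr rfl fun z _ => ?_
  rw [Finset.sum_ite_eq Finset.univ, if_pos (Finset.mem_univ _)]
  have h2 : ZMod.castHom hM (ZMod M) (ZMod.castHom hN (ZMod N) z) =
      ZMod.castHom (hM.trans hN) (ZMod M) z := by
    have h3 : (ZMod.castHom hM (ZMod M)).comp (ZMod.castHom hN (ZMod N)) =
      ZMod.castHom (hM.trans hN) (ZMod M) := Subsingleton.elim _ _
    rw [← h3]
    rfl
  rw [h2]

end Pool.Agent.H66.CM
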