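import Pool.Agent.H58.Mult.Event

/-! # Self-conjugate primes do not divide the order (MP_3e22f2_co) -/

set_option autoImplicit false

namespace Pool.Agent.H66.CM

open Finset Pool.Agent.H58.Mult

variable {v : ℕ} [NeZero v] {D : Finset (ZMod v)} {l : ℤ}

/-- If `-1` is a power of the prime `p` modulo `v`, `p` prime to `v`, and `v` is prime, then `p`
does not divide the order of a difference set which is neither empty nor everything. -/
theorem no_neg (hD : IsDS D l) (hne : D.Nonempty) (hun : ∃ g, g ∉ D) {p : ℕ}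
    (hp : p.Prime) (hpn : (p : ℤ) ∣ (D.card : ℤ) - l) (hpv : Nat.Coprime p v) {j : ℕ}
    (hj : (p : ZMod v) ^ j = -1) : False := by
  classical
  obtain ⟨O, _, _, z, hch, hz, hadj, hgal, hdvd⟩ := exists_cyclotomic v
  let ψ : AddChar (ZMod v) O := AddChar.zmodChar v hz.pow_eq_one
  have hψ : ψ.IsPrimitive := AddChar.zmodChar_primitive_of_primitive_root v hz
  -- a prime ideal over p
  have hpu : ¬ IsUnit (p : O) := by
    intro h
    have h1 : ((p : ℤ) : O) ∣ ((1 : ℤ) : O) := by
      push_cast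
      exact h.dvd
    have h2 := hdvd _ _ h1
    have h3 : (p : ℤ) = 1 := by
      have h4 := Int.eq_one_of_dvd_one (by positivity) h2
      exact h4
    exact hp.one_lt.ne' (by exact_mod_cast h3)
  obtain ⟨P, hPm, hpP⟩ := exists_max_ideal_of_mem_nonunits (mem_nonunits_iff.2 hpu)
  have hPp : P.IsPrime := hPm.isPrime
  have hfact : Fact p.Prime := ⟨hp⟩
  have hchP : CharP (O ⧸ P) p := by
    rw [CharP.charP_iff_prime_eq_zero hp]
    have h := Ideal.Quotient.eq_zero_iff_mem.2 hpP
    simpa using h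
  let π : O →+* O ⧸ P := Ideal.Quotient.mk P
  -- Frobenius
  have hfrob : ∀ a : ZMod v, π (S ψ D a) ^ p ^ j = π (S ψ D (-a)) := by
    intro a
    unfold S
    rw [map_sum, map_sum, sum_pow_char_pow]
    refine Finset.sum_congr rfl fun x _ => ?_
    rw [← map_pow, ← AddChar.map_nsmul_eq_pow]
    congr 2
    rw [nsmul_eq_mul]
    push_cast
    rw [hj]
    ring
  have hzero : ∀ a : ZMod v, a ≠ 0 → π (S ψ D a) = 0 := by
    intro a ha
    have h1 : π (S ψ D a * S ψ D (-a)) = 0 := by
      rw [S_mul hψ hD, if_neg ha, mul_zero, add_zero]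
      obtain ⟨c, hc⟩ := hpn
      rw [hc]
      push_cast
      rw [map_mul, map_natCast, CharP.cast_eq_zero, zero_mul]
    rw [map_mul, ← hfrob, ← pow_succ'] at h1
    exact eq_zero_of_pow_eq_zero h1
  -- inversion
  have hinv : ∀ g : ZMod v, π (S ψ D 0) = (v : O ⧸ P) * (if g ∈ D then 1 else 0) := by
    intro g
    let f : ZMod v → ℤ := fun x => if x ∈ D then 1 else 0
    have hf : ∀ a, ft ψ f a = S ψ D a := by
      intro a
      unfold ft S
      rw [← Finset.sum_filter_add_sum_filter_not Finset.univ (fun y => y ∈ D)]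
      have e2 : ∑ x ∈ Finset.univ.filter (fun y => ¬ y ∈ D), (f x : O) * ψ (a * x) = 0 := by
        refine Finset.sum_eq_zero fun x hx => ?_
        show (((if x ∈ D then 1 else 0 : ℤ)) : O) * _ = 0
        rw [if_neg (Finset.mem_filter.1 hx).2]
        simp
      rw [e2, add_zero, Finset.filter_mem_eq_inter, Finset.univ_inter]
      refine Finset.sum_congr rfl fun x hx => ?_
      show (((if x ∈ D then 1 else 0 : ℤ)) : O) * _ = _
      rw [if_pos hx]
      simp
    have h1 := ft_inv hψ f g
    simp_rw [hf] at h1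
    have h2 := congrArg π h1
    rw [map_sum, Finset.sum_eq_single 0] at h2
    · rw [zero_mul, neg_zero, AddChar.map_zero_eq_one, mul_one] at h2
      rw [h2, map_mul, map_natCast, map_intCast]
      show (v : O ⧸ P) * (((if g ∈ D then 1 else 0 : ℤ)) : O ⧸ P) = _
      split_ifs <;> simp
    · intro a _ ha
      rw [map_mul, hzero a ha, zero_mul]
    · intro h
      exact absurd (Finset.mem_univ _) h
  obtain ⟨g, hg⟩ := hne
  obtain ⟨g', hg'⟩ := hun
  have h1 := hinv g
  have h2 := hinv g'
  rw [if_pos hg, mul_one] at h1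
  rw [if_neg hg', mul_zero] at h2
  rw [h2] at h1
  have h3 := (CharP.cast_eq_zero_iff (O ⧸ P) p v).1 h1.symm
  exact (Nat.Prime.coprime_iff_not_dvd hp).1 hpv h3

/-- `v` an odd prime: the order of every prime `p` dividing `n` is odd. -/
theorem odd_order (hv : v.Prime) (hD : IsDS D l) (hne : D.Nonempty)
    (hun : ∃ g, g ∉ D) {p : ℕ} (hp : p.Prime) (hpn : (p : ℤ) ∣ (D.card : ℤ) - l)
    (hpv : Nat.Coprime p v) : ¬ 2 ∣ orderOf (ZMod.unitOfCoprime p hpv) := by
  intro ⟨c, hc⟩
  have hfact : Fact v.Prime := ⟨hv⟩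
  have hc0 : 0 < c := by
    have := orderOf_pos (ZMod.unitOfCoprime p hpv)
    omega
  refine no_neg hD hne hun hp hpn hpv (j := c) ?_
  have h1 : (ZMod.unitOfCoprime p hpv) ^ (2 * c) = 1 := by rw [← hc, pow_orderOf_eq_one]
  have h2 : (ZMod.unitOfCoprime p hpv) ^ c ≠ 1 := by
    intro h
    have := orderOf_dvd_of_pow_eq_one h
    have := Nat.le_of_dvd hc0 this
    omega
  have h3 : ((p : ZMod v) ^ c) * ((p : ZMod v) ^ c) = 1 := by
    have h4 := congrArg (fun z : (ZMod v)ˣ => (z : ZMod v)) h1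
    simp only [Units.val_pow_eq_pow_val, ZMod.coe_unitOfCoprime, Units.val_one] at h4
    rw [← pow_add, ← two_mul]
    exact h4
  rcases mul_self_eq_one_iff.1 h3 with h | h
  · exfalso
    apply h2
    ext
    rw [Units.val_pow_eq_pow_val, ZMod.coe_unitOfCoprime, Units.val_one]
    exact h
  · exact h

end Pool.Agent.H66.CM
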