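import Pool.Agent.H66.CM.Lev
import Pool.Agent.H66.CM.Defs

/-! # The recursive condition (MP_3e22f2_co)

`Rigid v (v / w) m`: a recursive condition which implies that the only `f` with `f f^* = m ^ 2`
whose image in `ZMod w` is `m` times a group element are `m` times a group element. For `w = 1` it is
the condition of McFarland with `(m ^ 2 - m) / 2` replaced by `2 m - 1`.
-/

set_option autoImplicit false

namespace Pool.Agent.H66.CM

open Finset Pool.Agent.H58.Mult Pool.Agent.H10.MU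
open scoped ComplexConjugate

variable {v : ℕ} [NeZero v]

theorem shift_of_corr {f : ZMod v → ℤ} {m : ℕ} (hsq : ∑ y, f y ^ 2 = (m : ℤ) ^ 2) (u : (ZMod v)ˣ)
    {g : ZMod v} (h : corr f u g = (m : ℤ) ^ 2) :
    ∀ y, f ((u⁻¹ : (ZMod v)ˣ) * (y + g)) = f y := by
  have hperm : ∑ y, f ((u⁻¹ : (ZMod v)ˣ) * (y + g)) ^ 2 = (m : ℤ) ^ 2 := by
    rw [← hsq]
    exact Fintype.sum_equiv ((Equiv.addRight g).trans (Units.mulLeft u⁻¹)) _ _ fun y => rfl
  have hcr : ∑ y, f ((u⁻¹ : (ZMod v)ˣ) * (y + g)) * f y = (m : ℤ) ^ 2 := h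
  have hz : ∑ y, (f ((u⁻¹ : (ZMod v)ˣ) * (y + g)) - f y) ^ 2 = 0 := by
    have h1 : ∀ y, (f ((u⁻¹ : (ZMod v)ˣ) * (y + g)) - f y) ^ 2 =
        f ((u⁻¹ : (ZMod v)ˣ) * (y + g)) ^ 2 - 2 * (f ((u⁻¹ : (ZMod v)ˣ) * (y + g)) * f y) +
          f y ^ 2 := by
      intro y
      ring
    simp_rw [h1]
    rw [Finset.sum_add_distrib, Finset.sum_sub_distrib, ← Finset.mul_sum, hperm, hcr, hsq]
    ring
  intro y
  have h1 := (Finset.sum_eq_zero_iff_of_nonneg (fun y _ => sq_nonneg _)).1 hz y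
    (Finset.mem_univ y)
  have h2 := pow_eq_zero_iff (two_ne_zero) |>.1 h1
  omega

theorem fix_of_shift {f : ZMod v → ℤ} {m : ℕ} (hs : ∑ y, f y = m) (hcop : Nat.Coprime m v)
    {c : ZMod v} (hc : (m : ZMod v) * c = ∑ y, (f y : ZMod v) * y) (u : (ZMod v)ˣ) {g : ZMod v}
    (hg : ∀ y, f ((u⁻¹ : (ZMod v)ˣ) * (y + g)) = f y) : ∀ y, f (u * y + c) = f (y + c) := by
  let mu : (ZMod v)ˣ := ZMod.unitOfCoprime m hcop
  have hmu : (mu : ZMod v) = m := ZMod.coe_unitOfCoprime m hcop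
  have hsZ : ∑ y, (f y : ZMod v) = m := by
    have := congrArg (fun z : ℤ => (z : ZMod v)) hs
    push_cast at this
    exact this
  have h1 : ∑ y, (f y : ZMod v) * y = u * (∑ y, (f y : ZMod v) * y) - m * g := by
    have e1 : ∑ y, (f y : ZMod v) * y = ∑ y, (f ((u⁻¹ : (ZMod v)ˣ) * (y + g)) : ZMod v) * y :=
      Finset.sum_congr rfl fun y _ => by rw [hg y]
    have e2 : ∑ y, (f ((u⁻¹ : (ZMod v)ˣ) * (y + g)) : ZMod v) * y =
        ∑ x, (f x : ZMod v) * (u * x - g) := by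
      refine Fintype.sum_equiv ((Equiv.addRight g).trans (Units.mulLeft u⁻¹)) _ _ fun y => ?_
      show (f ((u⁻¹ : (ZMod v)ˣ) * (y + g)) : ZMod v) * y =
        (f ((u⁻¹ : (ZMod v)ˣ) * (y + g)) : ZMod v) * (u * ((u⁻¹ : (ZMod v)ˣ) * (y + g)) - g)
      congr 1
      rw [← mul_assoc, Units.mul_inv, one_mul]
      ring
    refine (e1.trans e2).trans ?_
    have e3 : ∀ x, (f x : ZMod v) * (u * x - g) = u * ((f x : ZMod v) * x) - (f x : ZMod v) * g := by
      intro x
      ring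
    simp_rw [e3]
    rw [Finset.sum_sub_distrib, ← Finset.mul_sum, ← Finset.sum_mul, hsZ]
  have h2 : (m : ZMod v) * c = (m : ZMod v) * (u * c - g) := by
    rw [hc]
    rw [h1]
    rw [← hc]
    ring
  have h3 : c = u * c - g := by
    have := congrArg (fun z => ((mu⁻¹ : (ZMod v)ˣ) : ZMod v) * z) h2
    simp only [← mul_assoc, ← hmu, Units.inv_mul, one_mul] at this
    exact this
  intro y
  have h4 := hg (u * y + c)
  have h5 : ((u⁻¹ : (ZMod v)ˣ) : ZMod v) * (u * y + c + g) = y + c := by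
    have : u * y + c + g = u * (y + c) := by
      linear_combination h3
    rw [this, ← mul_assoc, Units.inv_mul, one_mul]
  rw [h5] at h4
  exact h4.symm

/-- The squares of the image. -/
theorem pf_zero_of {N : ℕ} [NeZero N] (hN : N ∣ v) {f : ZMod v → ℤ} {m : ℕ}
    (hf : AC f ((m : ℤ) ^ 2)) (h0 : pf hN f 0 = m) (y : ZMod N) (hy : y ≠ 0) : pf hN f y = 0 := by
  classical
  have hsq := (pf_AC hN hf).sq
  have h1 : ∑ y ∈ Finset.univ.erase (0 : ZMod N), pf hN f y ^ 2 = 0 := by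
    have := Finset.add_sum_erase Finset.univ (fun y => pf hN f y ^ 2) (Finset.mem_univ (0 : ZMod N))
    rw [hsq, h0] at this
    omega
  have h2 := (Finset.sum_eq_zero_iff_of_nonneg (fun y _ => sq_nonneg _)).1 h1 y
    (Finset.mem_erase.2 ⟨hy, Finset.mem_univ _⟩)
  exact pow_eq_zero_iff (two_ne_zero) |>.1 h2

theorem pf_corr {N : ℕ} [NeZero N] (hN : N ∣ v) {f : ZMod v → ℤ} {m : ℕ}
    (hf : AC f ((m : ℤ) ^ 2)) (h0 : pf hN f 0 = m) (u : (ZMod v)ˣ) :
    pf hN (corr f u) 0 = (m : ℤ) ^ 2 := by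
  have h1 := pf_mul hN (fun x => f (((u⁻¹ : (ZMod v)ˣ) : ZMod v) * x)) f
  have h2 : pf hN (corr f u) 0 = ∑ z : ZMod v, if ZMod.castHom hN (ZMod N) z = 0 then
      ∑ x, f (((u⁻¹ : (ZMod v)ˣ) : ZMod v) * (x + z)) * f x else 0 := rfl
  rw [h2, ← h1, Finset.sum_eq_single 0]
  · rw [pf_twist, mul_zero, h0, sq]
  · intro y _ hy
    rw [pf_zero_of hN hf h0 y hy, mul_zero]
  · intro h
    exact absurd (Finset.mem_univ _) h

/-- Every `f` with `f f^* = m ^ 2`, sum `m` and image `m` in `ZMod w` is `m` times a group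
element. -/
def Triv {v : ℕ} [NeZero v] {w : ℕ} (hw : w ∣ v) (m : ℕ) : Prop :=
  ∀ f : ZMod v → ℤ, AC f ((m : ℤ) ^ 2) → ∑ y, f y = m → pf hw f 0 = m → ∃ g, ∀ x, x ≠ g → f x = 0

/-- The common powers of the primes dividing `a` fix `f` up to translation. -/
theorem shift_of_triv {w : ℕ} [NeZero w] (hw : w ∣ v) {f : ZMod v → ℤ} {a b : ℕ} (hab : 0 < a * b)
    (hf : AC f (((a * b : ℕ) : ℤ) ^ 2)) (hs : ∑ y, f y = ((a * b : ℕ) : ℤ))
    (hw0 : pf hw f 0 = ((a * b : ℕ) : ℤ))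
    (hcop : Nat.Coprime (a * b) v) (u : (ZMod v)ˣ)
    (hu : ∀ p : ℕ, p.Prime → p ∣ a → ∃ j : ℕ, (u : ZMod v) = (p : ZMod v) ^ j)
    (hb : Triv hw (b ^ 2)) : ∃ g : ZMod v, ∀ y, f ((u⁻¹ : (ZMod v)ˣ) * (y + g)) = f y := by
  have ha0 : 0 < a := Nat.pos_of_mul_pos_right hab
  have hb0 : 0 < b := Nat.pos_of_mul_pos_left hab
  have haz : (a : ℤ) ≠ 0 := by exact_mod_cast ha0.ne'
  -- divisibility by `a ^ 2`
  have hd : ∀ g, (a : ℤ) ^ 2 ∣ corr f u g := by
    intro g
    have e : ((a : ℤ) ^ 2) = ((a ^ 2 : ℕ) : ℤ) := by push_cast; ring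
    rw [e, Int.natCast_dvd, Nat.dvd_iff_prime_pow_dvd_dvd]
    intro p k hp hk
    rcases Nat.eq_zero_or_pos k with rfl | hkpos
    · simp
    have hpn : p ∣ a := hp.dvd_of_dvd_pow ((dvd_pow_self p hkpos.ne').trans hk)
    obtain ⟨j, hj⟩ := hu p hp hpn
    have hbb : (p : ℤ) ^ k ∣ ((a * b : ℕ) : ℤ) ^ 2 := by
      have h1 : (p : ℤ) ^ k ∣ (a : ℤ) ^ 2 := by
        rw [e]
        exact_mod_cast hk
      refine h1.trans ?_
      push_cast
      exact ⟨(b : ℤ) ^ 2, by ring⟩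
    have h2 := div_corr hf hp (Nat.Coprime.coprime_dvd_left (hpn.mul_right b) hcop) u hj hbb g
    rw [← Int.natCast_dvd]
    exact_mod_cast h2
  choose c hc using hd
  -- the quotient
  have hAC : AC (corr f u) ((((a * b : ℕ) : ℤ) ^ 2) ^ 2) := by
    refine AC.of_norm fun x => ?_
    have hft : ∀ x, ft (χ v) f x * conj (ft (χ v) f x) = (((a * b : ℕ) : ℤ) : ℂ) ^ 2 := by
      intro x
      have h1 : conj (ft (χ v) f x) = ft (χ v) f (-x) := by
        unfold ft
        rw [map_sum]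
        refine Finset.sum_congr rfl fun y _ => ?_
        rw [map_mul, map_intCast, conj_χ]
        congr 2
        ring
      rw [h1, ft_of_AC (χ v) hf]
      push_cast
      ring
    rw [ft_corr, map_mul]
    have h1 := hft (x * u)
    have h2 := hft (-x)
    push_cast at h1 h2 ⊢
    calc ft (χ v) f (x * u) * ft (χ v) f (-x) * (conj (ft (χ v) f (x * u)) *
        conj (ft (χ v) f (-x))) = (ft (χ v) f (x * u) * conj (ft (χ v) f (x * u))) *
        (ft (χ v) f (-x) * conj (ft (χ v) f (-x))) := by ring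
      _ = (((a : ℂ) * b) ^ 2) ^ 2 := by rw [h1, h2]; ring
  have hACc : AC c (((b ^ 2 : ℕ) : ℤ) ^ 2) := by
    intro g
    have h1 := hAC g
    have h2 : ∑ y, corr f u (y + g) * corr f u y = ((a : ℤ) ^ 2) ^ 2 * ∑ y, c (y + g) * c y := by
      rw [Finset.mul_sum]
      refine Finset.sum_congr rfl fun y _ => ?_
      rw [hc, hc]
      ring
    rw [h2] at h1
    have h3 : (if g = 0 then (((a * b : ℕ) : ℤ) ^ 2) ^ 2 else 0) =
        ((a : ℤ) ^ 2) ^ 2 * (if g = 0 then ((b ^ 2 : ℕ) : ℤ) ^ 2 else 0) := by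
      split_ifs
      · push_cast
        ring
      · ring
    rw [h3] at h1
    exact mul_left_cancel₀ (pow_ne_zero 2 (pow_ne_zero 2 haz)) h1
  have hcs : ∑ g, c g = ((b ^ 2 : ℕ) : ℤ) := by
    have h1 := sum_corr f u
    simp_rw [hc] at h1
    rw [← Finset.mul_sum, hs] at h1
    have h2 : (a : ℤ) ^ 2 * ∑ g, c g = (a : ℤ) ^ 2 * ((b ^ 2 : ℕ) : ℤ) := by
      rw [h1]
      push_cast
      ring
    exact mul_left_cancel₀ (pow_ne_zero 2 haz) h2
  have hcw : pf hw c 0 = ((b ^ 2 : ℕ) : ℤ) := by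
    have h1 := pf_corr hw hf hw0 u
    have h2 : pf hw (corr f u) 0 = (a : ℤ) ^ 2 * pf hw c 0 := by
      unfold pf
      rw [Finset.mul_sum]
      refine Finset.sum_congr rfl fun x _ => ?_
      rw [hc, mul_ite, mul_zero]
    rw [h2] at h1
    have h3 : (a : ℤ) ^ 2 * pf hw c 0 = (a : ℤ) ^ 2 * ((b ^ 2 : ℕ) : ℤ) := by
      rw [h1]
      push_cast
      ring
    exact mul_left_cancel₀ (pow_ne_zero 2 haz) h3
  obtain ⟨g, hg⟩ := hb c hACc hcs hcw
  have hcg : c g = ((b ^ 2 : ℕ) : ℤ) := by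
    rw [← hcs]
    exact (Finset.sum_eq_single g (fun x _ hx => hg x hx)
      (fun h => absurd (Finset.mem_univ g) h)).symm
  refine ⟨g, shift_of_corr hf.sq u ?_⟩
  rw [hc, hcg]
  push_cast
  ring

theorem triv_one {w : ℕ} (hw : w ∣ v) : Triv hw 1 := by
  classical
  intro f hf hs _
  have hsq := hf.sq
  obtain ⟨g, hg⟩ : ∃ g, f g ≠ 0 := by
    by_contra hcon
    push Not at hcon
    have : ∑ y, f y = 0 := Finset.sum_eq_zero fun y _ => hcon y
    rw [this] at hs
    norm_num at hs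
  refine ⟨g, fun x hx => ?_⟩
  by_contra h
  have h1 : f g ^ 2 + f x ^ 2 ≤ ∑ y, f y ^ 2 := by
    have h2 : ∑ y ∈ {g, x}, f y ^ 2 ≤ ∑ y, f y ^ 2 :=
      Finset.sum_le_sum_of_subset_of_nonneg (Finset.subset_univ _) fun _ _ _ => sq_nonneg _
    rwa [Finset.sum_pair hx.symm] at h2
  rw [hsq] at h1
  have h3 : 0 < f g ^ 2 := by positivity
  have h4 : 0 < f x ^ 2 := by positivity
  push_cast at h1
  omega

/-- The value at `0` in the quotients. -/
theorem point_levels {f : ZMod v → ℤ} {m : ℕ} (hm : 0 < m) (hf : AC f ((m : ℤ) ^ 2))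
    (hs : ∑ y, f y = m) {w : ℕ} (hw0 : w ≠ 0) (hwv : w ∣ v) (hfw : pf hwv f 0 = m) (d : ℕ) :
    ∀ (N : ℕ) (_ : NeZero N) (hN : N ∣ v), N = d * w →
      (∀ q : ℕ, q.Prime → q ∣ d → ∃ u : (ZMod v)ˣ, (∀ x, f (u * x) = f x) ∧
        ∀ i : ℕ, 0 < i → i < 2 * m → ¬ (u : ZMod v).val ^ i ≡ 1 [MOD q]) →
      pf hN f 0 = m := by
  classical
  induction d using induction_on_primes with
  | zero =>
    intro N hN _ h
    rw [zero_mul] at h
    exact absurd h (NeZero.ne N)
  | one =>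
    intro N hN hNv h _
    rw [one_mul] at h
    subst h
    exact hfw
  | prime_mul q c hq ih =>
    intro N hN hNv h hord
    have hN' : N = q * (c * w) := by rw [h]; ring
    subst hN'
    have hc : c ≠ 0 := by
      rintro rfl
      exact NeZero.ne (q * (0 * w)) (by ring)
    have hM : NeZero (c * w) := ⟨Nat.mul_ne_zero hc hw0⟩
    have hi := ih (c * w) hM ((dvd_mul_left (c * w) q).trans hNv) rfl
      (fun q' hq' hqc => hord q' hq' (hqc.mul_left q))
    obtain ⟨u, hu, ho⟩ := hord q hq (dvd_mul_right _ _)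
    have huv : Nat.Coprime (u : ZMod v).val v := ZMod.val_coe_unit_coprime u
    have huq : Nat.Coprime (u : ZMod v).val q :=
      Nat.Coprime.coprime_dvd_right ((dvd_mul_right q (c * w)).trans hNv) huv
    have h1 := fibre_dvd hq (dvd_mul_left (c * w) q) (f := pf hNv f) (u := (u : ZMod v).val)
      (pf_inv hNv huv fun x => by rw [ZMod.natCast_zmod_val]; exact hu x) huq (x0 := 0)
      (mul_zero _)
    rw [map_zero, pf_pf, hi] at h1
    have hord2 : 2 * m ≤ orderOf (ZMod.unitOfCoprime (u : ZMod v).val huq) := by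
      by_contra hcon
      push Not at hcon
      have hfact : Fact q.Prime := ⟨hq⟩
      have hne : NeZero q := ⟨hq.ne_zero⟩
      refine ho _ (orderOf_pos (ZMod.unitOfCoprime (u : ZMod v).val huq)) hcon ?_
      rw [← ZMod.natCast_eq_natCast_iff]
      push_cast
      have h3 : ((ZMod.unitOfCoprime (u : ZMod v).val huq ^
          orderOf (ZMod.unitOfCoprime (u : ZMod v).val huq) : (ZMod q)ˣ) :
          ZMod q) = ((1 : (ZMod q)ˣ) : ZMod q) := by rw [pow_orderOf_eq_one]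
      rwa [Units.val_pow_eq_pow_val, ZMod.coe_unitOfCoprime, Units.val_one] at h3
    have hss : ∑ y, pf hNv f y = m := by rw [pf_sum, hs]
    have h3 := ne_neg hm hss (pf_AC hNv hf).sq 0
    have h4 := Int.eq_zero_of_abs_lt_dvd h1 (by
      rw [abs_lt]
      have h5 : (2 * m : ℤ) ≤
          ((orderOf (ZMod.unitOfCoprime (u : ZMod v).val huq) : ℕ) : ℤ) := by
        exact_mod_cast hord2
      constructor <;> omega)
    omega

theorem triv_of_rigid {w m : ℕ} (hw : w ∣ v) (h : Rigid v (v / w) m) :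
    0 < m → Nat.Coprime m v → Triv hw m := by
  have hv0 : v ≠ 0 := NeZero.ne v
  have hw0 : w ≠ 0 := by
    rintro rfl
    exact hv0 (Nat.eq_zero_of_zero_dvd hw)
  have hwn : NeZero w := ⟨hw0⟩
  induction h with
  | one => exact fun _ _ => triv_one hw
  | mul a b h hb ih =>
    intro hm hcop f hf hs hfw
    have hb0 : 0 < b := Nat.pos_of_mul_pos_left hm
    have hT : Triv hw (b ^ 2) := ih (by positivity)
      ((Nat.Coprime.coprime_mul_left hcop).pow_left 2)
    let mu : (ZMod v)ˣ := ZMod.unitOfCoprime (a * b) hcop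
    have hmu : (mu : ZMod v) = ((a * b : ℕ) : ZMod v) := ZMod.coe_unitOfCoprime _ hcop
    obtain ⟨c, hc⟩ : ∃ c : ZMod v, ((a * b : ℕ) : ZMod v) * c = ∑ y, (f y : ZMod v) * y := by
      refine ⟨((mu⁻¹ : (ZMod v)ˣ) : ZMod v) * ∑ y, (f y : ZMod v) * y, ?_⟩
      rw [← hmu, ← mul_assoc, Units.mul_inv, one_mul]
    -- the image of `c`
    have hcw : ZMod.castHom hw (ZMod w) c = 0 := by
      have h1 := congrArg (ZMod.castHom hw (ZMod w)) hc
      rw [map_mul, map_sum] at h1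
      have h2 : ∑ y, ZMod.castHom hw (ZMod w) ((f y : ZMod v) * y) =
          ∑ z : ZMod w, (pf hw f z : ZMod w) * z := by
        have h3 : ∀ z : ZMod w, (pf hw f z : ZMod w) * z =
            ∑ y : ZMod v, if ZMod.castHom hw (ZMod w) y = z then (f y : ZMod w) * z else 0 := by
          intro z
          unfold pf
          push_cast
          rw [Finset.sum_mul]
          refine Finset.sum_congr rfl fun y _ => ?_
          split_ifs <;> simp
        simp_rw [h3]
        rw [Finset.sum_comm]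
        refine Finset.sum_congr rfl fun y _ => ?_
        rw [Finset.sum_ite_eq Finset.univ, if_pos (Finset.mem_univ _), map_mul, map_intCast]
      have h4 : ∑ z : ZMod w, (pf hw f z : ZMod w) * z = 0 := by
        refine Finset.sum_eq_zero fun z _ => ?_
        by_cases hz : z = 0
        · rw [hz, mul_zero]
        · rw [pf_zero_of hw hf hfw z hz, Int.cast_zero, zero_mul]
      rw [h2, h4] at h1
      have h5 := congrArg (fun x => ZMod.castHom hw (ZMod w) ((mu⁻¹ : (ZMod v)ˣ) : ZMod v) * x) h1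
      simp only [mul_zero] at h5
      rw [← hmu, ← mul_assoc, ← map_mul, Units.inv_mul, map_one, one_mul] at h5
      exact h5
    let F0 : ZMod v → ℤ := fun y => f (y + c)
    have hAC0 : AC F0 (((a * b : ℕ) : ℤ) ^ 2) := by
      intro g
      rw [← hf g]
      refine Fintype.sum_equiv (Equiv.addRight c) _ _ fun y => ?_
      show f (y + g + c) * f (y + c) = f (y + c + g) * f (y + c)
      rw [add_right_comm]
    have hs0 : ∑ y, F0 y = ((a * b : ℕ) : ℤ) := by
      rw [← hs]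
      exact Fintype.sum_equiv (Equiv.addRight c) _ _ fun y => rfl
    have hF0w : pf hw F0 0 = ((a * b : ℕ) : ℤ) := by
      rw [← hfw]
      unfold pf
      refine Fintype.sum_equiv (Equiv.addRight c) _ _ fun y => ?_
      show (if ZMod.castHom hw (ZMod w) y = 0 then f (y + c) else 0) =
        (if ZMod.castHom hw (ZMod w) (y + c) = 0 then f (y + c) else 0)
      rw [map_add, hcw, add_zero]
    have h1 := point_levels hm hAC0 hs0 hw0 hw hF0w (v / w) v inferInstance dvd_rfl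
      (Nat.div_mul_cancel hw).symm (by
        intro q hq hqd
        obtain ⟨u, hu, ho⟩ := h q hq hqd
        obtain ⟨g, hg⟩ := shift_of_triv hw hm hf hs hfw hcop u hu hT
        exact ⟨u, fun x => fix_of_shift hs hcop hc u hg x, ho⟩)
    refine ⟨c, fun x hx => ?_⟩
    have h2 := pf_zero_of (dvd_refl v) hAC0 h1 (x - c) (sub_ne_zero.2 hx)
    have e : ∀ z : ZMod v, ZMod.castHom (dvd_refl v) (ZMod v) z = z := by
      intro z
      rw [ZMod.castHom_self]
      rfl
    unfold pf at h2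
    simp only [e, Finset.sum_ite_eq', Finset.mem_univ, if_true] at h2
    have h3 : f (x - c + c) = 0 := h2
    rwa [sub_add_cancel] at h3

end Pool.Agent.H66.CM
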