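import Pool.Agent.H66.CM.Blk
import Pool.Agent.H66.CM.Neg

/-! # Two blocks of primes (MP_3e22f2_co) -/

set_option autoImplicit false

namespace Pool.Agent.H66.CM

open Finset Pool.Agent.H58.Mult Pool.Agent.H10.MU

variable {v : ℕ} [NeZero v] {D : Finset (ZMod v)}

/-- **One block.** -/
theorem one_block (hv : v.Prime) {lam : ℕ} (hD : IsDS D (lam : ℤ)) {a n1 : ℕ}
    (hn : D.card = lam + a * n1) (hpos : 0 < a * n1) (hcop : Nat.Coprime (a * n1) v)
    (u t : (ZMod v)ˣ)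
    (hu : ∀ p : ℕ, p.Prime → p ∣ a → ∃ j : ℕ, (u : ZMod v) = (p : ZMod v) ^ j)
    (ht : ∀ p : ℕ, p.Prime → p ∣ n1 → ∃ j : ℕ, (t : ZMod v) = (p : ZMod v) ^ j)
    (hR : 1 < orderOf t) (hle : orderOf t * a ≤ (orderOf t - 1) * orderOf u) :
    ∃ t : (ZMod v)ˣ, t ≠ 1 ∧ IsMult D t := by
  obtain ⟨i, hi0, hile, -, -, hi⟩ := block_mult hD (a := a) (b := 1) (n1 := n1) (w := 1)
    (R := orderOf t) (by rw [mul_one]; exact hn) (by rwa [mul_one]) (by rwa [mul_one])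
    (one_dvd v) (by rw [one_pow]; exact Rigid.one) hR
    (by
      intro q hq hqv
      rw [Nat.div_one] at hqv
      have hqv' : q = v := (Nat.prime_dvd_prime_iff_eq hq hv).1 hqv
      subst hqv'
      refine ⟨u, hu, fun i hi0 hi h => ?_⟩
      rw [mul_one] at hi
      have h3 : u ^ i = 1 := by
        apply Units.ext
        rw [← ZMod.natCast_eq_natCast_iff] at h
        push_cast at h
        rw [ZMod.natCast_zmod_val] at h
        rw [Units.val_pow_eq_pow_val, Units.val_one]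
        exact h
      have h4 := Nat.le_of_dvd hi0 (orderOf_dvd_of_pow_eq_one h3)
      have h5 : (orderOf t - 1) * orderOf u ≤ (orderOf t - 1) * i := Nat.mul_le_mul_left _ h4
      omega)
    t ht (Nat.modEq_one)
  refine ⟨t ^ i, fun h => ?_, hi⟩
  have h3 := Nat.le_of_dvd hi0 (orderOf_dvd_of_pow_eq_one h)
  rw [Nat.div_one, ArithmeticFunction.cardFactors_apply_prime hv, pow_one] at hile
  omega

omit [NeZero v] in
/-- Common powers in terms of orders. -/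
theorem mem_pow' (hv : v.Prime) {A : ℕ} (hA : 0 < A) {u : (ZMod v)ˣ} (hu : orderOf u = A) {p : ℕ}
    (hp : A ∣ orderOf (p : ZMod v)) (hp0 : 0 < orderOf (p : ZMod v)) :
    ∃ j : ℕ, (u : ZMod v) = (p : ZMod v) ^ j := by
  have hfact : Fact v.Prime := ⟨hv⟩
  obtain ⟨c, hc⟩ := hp
  have hc0 : c ≠ 0 := by
    rintro rfl
    rw [mul_zero] at hc
    omega
  have hprim : IsPrimitiveRoot ((p : ZMod v) ^ c) A := by
    rw [IsPrimitiveRoot.iff_orderOf, orderOf_pow_of_dvd hc0 (Dvd.intro_left A hc.symm), hc,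
      Nat.mul_div_cancel _ (Nat.pos_of_ne_zero hc0)]
  have hu1 : (u : ZMod v) ^ A = 1 := by
    have : u ^ A = 1 := by rw [← hu, pow_orderOf_eq_one]
    have h2 := congrArg (fun z : (ZMod v)ˣ => (z : ZMod v)) this
    simpa using h2
  have : NeZero A := ⟨hA.ne'⟩
  obtain ⟨i, _, hi⟩ := hprim.eq_pow_of_pow_eq_one hu1
  exact ⟨c * i, by rw [← hi, pow_mul]⟩

theorem exists_order' (hv : v.Prime) {A : ℕ} (hA : A ∣ v - 1) :
    ∃ u : (ZMod v)ˣ, orderOf u = A := by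
  have hfact : Fact v.Prime := ⟨hv⟩
  obtain ⟨g, hg⟩ := IsCyclic.exists_ofOrder_eq_natCard (α := (ZMod v)ˣ)
  have hcard : Nat.card (ZMod v)ˣ = v - 1 := by
    rw [Nat.card_eq_fintype_card, ZMod.card_units_eq_totient, Nat.totient_prime hv]
  rw [hcard] at hg
  obtain ⟨B, hB⟩ := hA
  have hv1 : 0 < v - 1 := by have := hv.two_le; omega
  have hB0 : B ≠ 0 := by
    rintro rfl
    rw [mul_zero] at hB
    omega
  refine ⟨g ^ B, ?_⟩
  rw [orderOf_pow_of_dvd hB0 (by rw [hg, hB]; exact dvd_mul_left _ _), hg, hB,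
    Nat.mul_div_cancel _ (Nat.pos_of_ne_zero hB0)]

/-- **One block**, in terms of orders. -/
theorem one_div (hv : v.Prime) {lam : ℕ} (hD : IsDS D (lam : ℤ)) (h1 : 1 < D.card)
    (h2 : D.card + 1 < v) {a n1 A B : ℕ} (hn : D.card = lam + a * n1) (hA : A ∣ v - 1)
    (hB : B ∣ v - 1) (hB1 : 1 < B)
    (hpa : ∀ p : ℕ, p.Prime → p ∣ a → A ∣ orderOf (p : ZMod v))
    (hpb : ∀ p : ℕ, p.Prime → p ∣ n1 → B ∣ orderOf (p : ZMod v))
    (hle : B * a ≤ (B - 1) * A) :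
    ∃ t : (ZMod v)ˣ, t ≠ 1 ∧ IsMult D t := by
  obtain ⟨hlam, -⟩ := shape h1 h2 (card_mul hD)
  have hfact : Fact v.Prime := ⟨hv⟩
  have hpos : 0 < a * n1 := by omega
  have hlt : a * n1 < v := by omega
  have hcop : Nat.Coprime (a * n1) v :=
    (Nat.Coprime.symm ((Nat.Prime.coprime_iff_not_dvd hv).2 fun h =>
      absurd (Nat.le_of_dvd hpos h) (not_le.2 hlt)))
  have hv1 : 0 < v - 1 := by have := hv.two_le; omega
  have hop : ∀ q : ℕ, q ∣ a * n1 → 0 < orderOf (q : ZMod v) := by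
    intro q hq
    have e : orderOf (q : ZMod v) =
        orderOf (ZMod.unitOfCoprime q (Nat.Coprime.coprime_dvd_left hq hcop)) := by
      rw [← orderOf_units, ZMod.coe_unitOfCoprime]
    rw [e]
    exact orderOf_pos _
  obtain ⟨uA, huA⟩ := exists_order' hv hA
  obtain ⟨uB, huB⟩ := exists_order' hv hB
  refine one_block hv hD hn hpos hcop uA uB ?_ ?_ (by rw [huB]; exact hB1)
    (by rw [huA, huB]; exact hle)
  · intro p hp hpd
    exact mem_pow' hv (Nat.pos_of_dvd_of_pos hA hv1) huA (hpa p hp hpd)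
      (hop p (Dvd.dvd.mul_right hpd n1))
  · intro p hp hpd
    exact mem_pow' hv (Nat.pos_of_dvd_of_pos hB hv1) huB (hpb p hp hpd)
      (hop p (Dvd.dvd.mul_left hpd a))

omit [NeZero v] in
/-- The part of `n` which is composed of the primes with a property. -/
noncomputable def part (n : ℕ) (P : ℕ → Prop) : ℕ := by
  classical
  exact ∏ p ∈ n.primeFactors.filter P, p ^ n.factorization p

theorem part_mul {n : ℕ} (hn : n ≠ 0) (P : ℕ → Prop) :
    part n P * part n (fun p => ¬ P p) = n := by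
  classical
  unfold part
  rw [Finset.prod_filter_mul_prod_filter_not]
  exact Nat.prod_factorization_pow_eq_self hn

theorem of_dvd_part {n : ℕ} {P : ℕ → Prop} {q : ℕ} (hq : q.Prime) (h : q ∣ part n P) :
    q ∣ n ∧ P q := by
  classical
  unfold part at h
  obtain ⟨p, hp, hpd⟩ := (Prime.dvd_finsetProd_iff (Nat.prime_iff.1 hq) _).1 h
  rw [Finset.mem_filter, Nat.mem_primeFactors] at hp
  have h3 : q = p := (Nat.prime_dvd_prime_iff_eq hq hp.1.1).1 (hq.dvd_of_dvd_pow hpd)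
  rw [h3]
  exact ⟨hp.1.2.1, hp.2⟩

omit [NeZero v] in
theorem part_pow {n e : ℕ} {P : ℕ → Prop}
    (h : ∀ p : ℕ, p.Prime → p ∣ n → P p → ((p : ℕ) : ZMod v) ^ e = 1) :
    ((part n P : ℕ) : ZMod v) ^ e = 1 := by
  classical
  unfold part
  push_cast
  rw [← Finset.prod_pow]
  refine Finset.prod_eq_one fun p hp => ?_
  have h2 := Finset.mem_filter.1 hp
  have h3 := Nat.mem_primeFactors.1 h2.1
  rw [← pow_mul, mul_comm, pow_mul, h p h3.1 h3.2.1 h2.2, one_pow]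

/-- **Two divisors.** -/
theorem two_divisors (hv : v.Prime) {lam : ℕ} (hD : IsDS D (lam : ℤ)) (h1 : 1 < D.card)
    (h2 : D.card + 1 < v) {n A B : ℕ} (hn : D.card = lam + n) (hA : A ∣ v - 1) (hB : B ∣ v - 1)
    (hord : ∀ p : ℕ, p.Prime → p ∣ n → A ∣ orderOf (p : ZMod v) ∨ B ∣ orderOf (p : ZMod v))
    (hAB : A ≤ B) (hbig : n ≤ (A - 1) * B) :
    ∃ t : (ZMod v)ˣ, t ≠ 1 ∧ IsMult D t := by
  obtain ⟨hlam, -⟩ := shape h1 h2 (card_mul hD)
  have hn0 : n ≠ 0 := by omega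
  have hA1 : 1 < A := by
    by_contra h
    have h3 : A - 1 = 0 := by omega
    rw [h3, zero_mul] at hbig
    omega
  have hmm := part_mul hn0 (fun p => A ∣ orderOf ((p : ℕ) : ZMod v))
  generalize hm1 : part n (fun p => A ∣ orderOf ((p : ℕ) : ZMod v)) = m1 at hmm
  generalize hm2 : part n (fun p => ¬ A ∣ orderOf ((p : ℕ) : ZMod v)) = m2 at hmm
  have g1 : ∀ p : ℕ, p.Prime → p ∣ m1 → A ∣ orderOf (p : ZMod v) := by
    intro p hp hpd
    rw [← hm1] at hpd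
    exact (of_dvd_part hp hpd).2
  have g2 : ∀ p : ℕ, p.Prime → p ∣ m2 → B ∣ orderOf (p : ZMod v) := by
    intro p hp hpd
    rw [← hm2] at hpd
    obtain ⟨h3, h4⟩ := of_dvd_part hp hpd
    exact (hord p hp h3).resolve_left h4
  by_cases hc : B * m1 ≤ (B - 1) * A
  · exact one_div hv hD h1 h2 (a := m1) (n1 := m2) (by rw [hmm]; exact hn) hA hB
      (by omega) g1 g2 hc
  · refine one_div hv hD h1 h2 (a := m2) (n1 := m1) (by rw [mul_comm m2, hmm]; exact hn) hB hA hA1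
      g2 g1 ?_
    push Not at hc
    have h3 : A ≤ m1 := by
      obtain ⟨f1, rfl⟩ : ∃ f1, A = f1 + 1 := ⟨A - 1, by omega⟩
      obtain ⟨f2, rfl⟩ : ∃ f2, B = f2 + 1 := ⟨B - 1, by omega⟩
      rw [Nat.add_sub_cancel] at hc
      by_contra hcon
      have h4 : m1 ≤ f1 := by omega
      have h5 : (f2 + 1) * m1 ≤ (f2 + 1) * f1 := Nat.mul_le_mul_left _ h4
      have h6 : f2 * (f1 + 1) + f1 = (f2 + 1) * f1 + f2 := by ring
      omega
    calc A * m2 ≤ m1 * m2 := Nat.mul_le_mul_right _ h3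
      _ = n := hmm
      _ ≤ _ := hbig

/-- The order of a prime dividing `n` is odd and divides `v - 1`. -/
theorem order_odd (hv : v.Prime) {lam : ℕ} (hD : IsDS D (lam : ℤ)) (h1 : 1 < D.card)
    (h2 : D.card + 1 < v) {n : ℕ} (hn : D.card = lam + n) (hn0 : 0 < n) {p : ℕ} (hp : p.Prime)
    (hpn : p ∣ n) : ¬ 2 ∣ orderOf (p : ZMod v) ∧ orderOf (p : ZMod v) ∣ v - 1 ∧
      orderOf (p : ZMod v) ≠ 1 ∧ 0 < orderOf (p : ZMod v) := by
  have hfact : Fact v.Prime := ⟨hv⟩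
  have hpv : p < v := lt_of_le_of_lt (Nat.le_of_dvd hn0 hpn) (by omega)
  have hc : Nat.Coprime p v := (Nat.Coprime.symm ((Nat.Prime.coprime_iff_not_dvd hv).2 fun h =>
    absurd (Nat.le_of_dvd hp.pos h) (not_le.2 hpv)))
  have e : orderOf (p : ZMod v) = orderOf (ZMod.unitOfCoprime p hc) := by
    rw [← orderOf_units, ZMod.coe_unitOfCoprime]
  have hun : ∃ g, g ∉ D := by
    by_contra hcon
    push Not at hcon
    have h3 : D = Finset.univ := Finset.eq_univ_of_forall hcon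
    have h4 : D.card = v := by rw [h3, Finset.card_univ, ZMod.card]
    omega
  refine ⟨?_, ?_, ?_, ?_⟩
  · rw [e]
    refine odd_order hv hD (Finset.card_pos.1 (by omega)) hun hp ?_ hc
    rw [hn]
    obtain ⟨c, rfl⟩ := hpn
    exact ⟨c, by push_cast; ring⟩
  · rw [e]
    exact orderOf_dvd_of_pow_eq_one (ZMod.units_pow_card_sub_one_eq_one v _)
  · intro h
    rw [orderOf_eq_one_iff] at h
    have h4 : ((p : ℕ) : ZMod v) = ((1 : ℕ) : ZMod v) := by rw [h]; simp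
    rw [ZMod.natCast_eq_natCast_iff', Nat.mod_eq_of_lt hpv, Nat.mod_eq_of_lt hv.one_lt] at h4
    exact hp.one_lt.ne' h4
  · rw [e]
    exact orderOf_pos _

/-- `4 n ≤ v + 1`. -/
theorem four_mul_le {lam : ℕ} (hD : IsDS D (lam : ℤ)) (h1 : 1 < D.card)
    (h2 : D.card + 1 < v) {n : ℕ} (hn : D.card = lam + n) : 4 * n ≤ v + 1 := by
  have hk := card_sq hD
  by_contra hcon
  push Not at hcon
  have h3 : (v : ℤ) + 2 ≤ 4 * n := by exact_mod_cast hcon
  have h4 : (D.card : ℤ) = lam + n := by exact_mod_cast hn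
  have h5 : (3 : ℤ) < v := by
    have : 3 < v := by omega
    exact_mod_cast this
  have h6 : (lam : ℤ) = D.card - n := by linarith
  rw [h6] at hk
  have h7 : (n : ℤ) * (v - 1) = D.card * (v - D.card) := by linarith
  have h8 : 4 * ((D.card : ℤ) * (v - D.card)) ≤ (v : ℤ) ^ 2 := by
    nlinarith [sq_nonneg ((v : ℤ) - 2 * D.card)]
  nlinarith

/-- **Two divisors**, for the primes of odd order. -/
theorem two_orders (hv : v.Prime) {lam : ℕ} (hD : IsDS D (lam : ℤ)) (h1 : 1 < D.card)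
    (h2 : D.card + 1 < v) {A B : ℕ} (hA : A ∣ v - 1) (hB : B ∣ v - 1) (hAB : A ≤ B)
    (hn : D.card ≤ lam + (A - 1) * B)
    (hord : ∀ p : ℕ, p.Prime → p ∣ D.card - lam → Odd (orderOf (p : ZMod v)) →
      A ∣ orderOf (p : ZMod v) ∨ B ∣ orderOf (p : ZMod v)) :
    ∃ t : (ZMod v)ˣ, t ≠ 1 ∧ IsMult D t := by
  obtain ⟨hlam, -⟩ := shape h1 h2 (card_mul hD)
  have hnn : D.card = lam + (D.card - lam) := by omega
  refine two_divisors hv hD h1 h2 hnn hA hB (fun p hp hpn => ?_) hAB (by omega)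
  refine hord p hp hpn ?_
  rw [← Nat.not_even_iff_odd, even_iff_two_dvd]
  exact (order_odd hv hD h1 h2 hnn (by omega) hp hpn).1

/-- **Two primes**, `v - 1 = 2 r s`. -/
theorem two_primes (hv : v.Prime) {lam : ℕ} (hD : IsDS D (lam : ℤ)) (h1 : 1 < D.card)
    (h2 : D.card + 1 < v) {r s : ℕ} (hr : r.Prime) (hs : s.Prime) (hr2 : 2 < r) (hrs : r < s)
    (hv1 : v - 1 = 2 * r * s) : ∃ t : (ZMod v)ˣ, t ≠ 1 ∧ IsMult D t := by
  obtain ⟨hlam, -⟩ := shape h1 h2 (card_mul hD)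
  obtain ⟨n, hn⟩ : ∃ n, D.card = lam + n := ⟨D.card - lam, by omega⟩
  have hn0 : 0 < n := by omega
  have h4 := four_mul_le hD h1 h2 hn
  refine two_divisors hv hD h1 h2 hn (A := r) (B := s) ⟨2 * s, by rw [hv1]; ring⟩
    ⟨2 * r, by rw [hv1]; ring⟩ ?_ hrs.le ?_
  · intro p hp hpn
    obtain ⟨g1, g2, g3, g4⟩ := order_odd hv hD h1 h2 hn hn0 hp hpn
    by_contra hcon
    push Not at hcon
    have c1 : Nat.Coprime (orderOf (p : ZMod v)) 2 :=
      Nat.Coprime.symm ((Nat.Prime.coprime_iff_not_dvd Nat.prime_two).2 g1)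
    have c2 : Nat.Coprime (orderOf (p : ZMod v)) r :=
      Nat.Coprime.symm ((Nat.Prime.coprime_iff_not_dvd hr).2 hcon.1)
    have c3 : Nat.Coprime (orderOf (p : ZMod v)) s :=
      Nat.Coprime.symm ((Nat.Prime.coprime_iff_not_dvd hs).2 hcon.2)
    have c4 : Nat.Coprime (orderOf (p : ZMod v)) (v - 1) := by
      rw [hv1]
      exact Nat.Coprime.mul_right (Nat.Coprime.mul_right c1 c2) c3
    exact g3 (Nat.Coprime.eq_one_of_dvd c4 g2)
  · have hvv : v = 2 * r * s + 1 := by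
      have := hv.two_le
      omega
    obtain ⟨r', rfl⟩ : ∃ r', r = r' + 3 := ⟨r - 3, by omega⟩
    have h7 : r' + 3 - 1 = r' + 2 := by omega
    rw [h7]
    rw [hvv] at h4
    nlinarith

/-- The structure of `n` if there is no multiplier and `v - 1` has two odd prime factors. -/
theorem no_mult (hv : v.Prime) {lam : ℕ} (hD : IsDS D (lam : ℤ)) (h1 : 1 < D.card)
    (h2 : D.card + 1 < v) {r s e c d : ℕ} (hr : r.Prime) (hs : s.Prime) (hr2 : 2 < r) (hs2 : 2 < s)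
    (hc : 0 < c) (hd : 0 < d) (hv1 : v - 1 = 2 ^ e * r ^ c * s ^ d)
    (hno : ¬ ∃ t : (ZMod v)ˣ, t ≠ 1 ∧ IsMult D t) :
    ∃ x y z : ℕ, D.card = lam + x * y * z ∧ 0 < z ∧ (s - 1) * r < s * x ∧ (r - 1) * s < r * y ∧
      (x : ZMod v) ^ r ^ c = 1 ∧ (∀ p : ℕ, p.Prime → p ∣ x → Odd (orderOf (p : ZMod v))) := by
  have hfact : Fact v.Prime := ⟨hv⟩
  obtain ⟨hlam, -⟩ := shape h1 h2 (card_mul hD)
  obtain ⟨n, hn⟩ : ∃ n, D.card = lam + n := ⟨D.card - lam, by omega⟩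
  have hn0 : 0 < n := by omega
  have hrd : r ∣ v - 1 := by
    rw [hv1]
    exact Dvd.dvd.mul_right (Dvd.dvd.mul_left (dvd_pow_self r hc.ne') _) _
  have hsd : s ∣ v - 1 := by
    rw [hv1]
    exact Dvd.dvd.mul_left (dvd_pow_self s hd.ne') _
  -- the orders
  have hord : ∀ p : ℕ, p.Prime → p ∣ n →
      (¬ s ∣ orderOf (p : ZMod v) → orderOf (p : ZMod v) ∣ r ^ c ∧ r ∣ orderOf (p : ZMod v)) ∧
      (¬ r ∣ orderOf (p : ZMod v) → orderOf (p : ZMod v) ∣ s ^ d ∧ s ∣ orderOf (p : ZMod v)) := by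
    intro p hp hpn
    obtain ⟨g1, g2, g3, g4⟩ := order_odd hv hD h1 h2 hn hn0 hp hpn
    have c1 : Nat.Coprime (orderOf (p : ZMod v)) (2 ^ e) :=
      Nat.Coprime.pow_right e
        (Nat.Coprime.symm ((Nat.Prime.coprime_iff_not_dvd Nat.prime_two).2 g1))
    have g5 : orderOf (p : ZMod v) ∣ r ^ c * s ^ d := by
      rw [hv1, mul_assoc] at g2
      exact Nat.Coprime.dvd_of_dvd_mul_left c1 g2
    have key : ∀ (a i : ℕ), a.Prime → orderOf (p : ZMod v) ∣ a ^ i → a ∣ orderOf (p : ZMod v) := by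
      intro a i ha h
      obtain ⟨j, -, hj⟩ := (Nat.dvd_prime_pow ha).1 h
      rcases Nat.eq_zero_or_pos j with h0 | h0
      · rw [h0, pow_zero] at hj
        exact absurd hj g3
      · rw [hj]
        exact dvd_pow_self a h0.ne'
    refine ⟨fun h => ?_, fun h => ?_⟩
    · have c3 : Nat.Coprime (orderOf (p : ZMod v)) (s ^ d) :=
        Nat.Coprime.pow_right d (Nat.Coprime.symm ((Nat.Prime.coprime_iff_not_dvd hs).2 h))
      have g6 := Nat.Coprime.dvd_of_dvd_mul_right c3 g5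
      exact ⟨g6, key r c hr g6⟩
    · have c2 : Nat.Coprime (orderOf (p : ZMod v)) (r ^ c) :=
        Nat.Coprime.pow_right c (Nat.Coprime.symm ((Nat.Prime.coprime_iff_not_dvd hr).2 h))
      have g6 := Nat.Coprime.dvd_of_dvd_mul_left c2 g5
      exact ⟨g6, key s d hs g6⟩
  -- the parts
  have hx := part_mul hn0.ne' (fun p => ¬ s ∣ orderOf ((p : ℕ) : ZMod v))
  have hy := part_mul hn0.ne' (fun p => ¬ r ∣ orderOf ((p : ℕ) : ZMod v))
  have hxpow : ((part n (fun p => ¬ s ∣ orderOf ((p : ℕ) : ZMod v)) : ℕ) : ZMod v) ^ r ^ c = 1 := by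
    refine part_pow fun p hp hpn hs' => ?_
    exact orderOf_dvd_iff_pow_eq_one.1 ((hord p hp hpn).1 hs').1
  have hxd : ∀ p : ℕ, p.Prime → p ∣ part n (fun p => ¬ s ∣ orderOf ((p : ℕ) : ZMod v)) →
      p ∣ n ∧ r ∣ orderOf (p : ZMod v) ∧ ¬ s ∣ orderOf (p : ZMod v) := by
    intro p hp hpd
    obtain ⟨h5, h6⟩ := of_dvd_part hp hpd
    exact ⟨h5, ((hord p hp h5).1 h6).2, h6⟩
  have hyd : ∀ p : ℕ, p.Prime → p ∣ part n (fun p => ¬ r ∣ orderOf ((p : ℕ) : ZMod v)) →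
      p ∣ n ∧ s ∣ orderOf (p : ZMod v) := by
    intro p hp hpd
    obtain ⟨h5, h6⟩ := of_dvd_part hp hpd
    exact ⟨h5, ((hord p hp h5).2 h6).2⟩
  have hxd' : ∀ p : ℕ, p.Prime → p ∣ part n (fun p => ¬ ¬ s ∣ orderOf ((p : ℕ) : ZMod v)) →
      s ∣ orderOf (p : ZMod v) := by
    intro p hp hpd
    exact not_not.1 (of_dvd_part hp hpd).2
  have hyd' : ∀ p : ℕ, p.Prime → p ∣ part n (fun p => ¬ ¬ r ∣ orderOf ((p : ℕ) : ZMod v)) →
      r ∣ orderOf (p : ZMod v) := by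
    intro p hp hpd
    exact not_not.1 (of_dvd_part hp hpd).2
  generalize part n (fun p => ¬ s ∣ orderOf ((p : ℕ) : ZMod v)) = x at hx hxpow hxd
  generalize part n (fun p => ¬ r ∣ orderOf ((p : ℕ) : ZMod v)) = y at hy hyd
  generalize part n (fun p => ¬ ¬ s ∣ orderOf ((p : ℕ) : ZMod v)) = x' at hx hxd'
  generalize part n (fun p => ¬ ¬ r ∣ orderOf ((p : ℕ) : ZMod v)) = y' at hy hyd'
  -- both parts are large
  have hxl : (s - 1) * r < s * x := by
    by_contra hcon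
    push Not at hcon
    exact hno (one_div hv hD h1 h2 (a := x) (n1 := x') (by rw [hx]; exact hn) hrd hsd (by omega)
      (fun p hp hpd => (hxd p hp hpd).2.1) hxd' hcon)
  have hyl : (r - 1) * s < r * y := by
    by_contra hcon
    push Not at hcon
    exact hno (one_div hv hD h1 h2 (a := y) (n1 := y') (by rw [hy]; exact hn) hsd hrd (by omega)
      (fun p hp hpd => (hyd p hp hpd).2) hyd' hcon)
  have hcxy : Nat.Coprime x y := by
    refine Nat.coprime_of_dvd fun p hp hpx hpy => ?_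
    exact (hxd p hp hpx).2.2 (hyd p hp hpy).2
  obtain ⟨z, hz⟩ : x * y ∣ n :=
    Nat.Coprime.mul_dvd_of_dvd_of_dvd hcxy ⟨x', hx.symm⟩ ⟨y', hy.symm⟩
  have hz0 : 0 < z := by
    rcases Nat.eq_zero_or_pos z with h | h
    · rw [h, mul_zero] at hz
      omega
    · exact h
  refine ⟨x, y, z, by rw [← hz]; exact hn, hz0, hxl, hyl, hxpow, fun p hp hpd => ?_⟩
  rw [← Nat.not_even_iff_odd, even_iff_two_dvd]
  exact (order_odd hv hD h1 h2 hn hn0 hp (hxd p hp hpd).1).1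

/-- **Two primes**, `v - 1 = 4 r s`. -/
theorem four_primes (hv : v.Prime) {lam : ℕ} (hD : IsDS D (lam : ℤ)) (h1 : 1 < D.card)
    (h2 : D.card + 1 < v) {r s : ℕ} (hr : r.Prime) (hs : s.Prime) (hr2 : 2 < r) (hrs : r < s)
    (hv1 : v - 1 = 4 * r * s) (hrr : (r : ZMod v) ^ r ≠ 1) :
    ∃ t : (ZMod v)ˣ, t ≠ 1 ∧ IsMult D t := by
  by_contra hno
  have hfact : Fact v.Prime := ⟨hv⟩
  obtain ⟨x, y, z, hn, hz0, hxl, hyl, hxpow, hxo⟩ := no_mult hv hD h1 h2 (e := 2) (c := 1) (d := 1)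
    hr hs hr2 (by omega) one_pos one_pos (by rw [hv1, pow_one, pow_one]; norm_num) hno
  rw [pow_one] at hxpow
  have h4 := four_mul_le hD h1 h2 hn
  have hvv : v = 4 * r * s + 1 := by
    have := hv.two_le
    omega
  have hnle : x * y * z ≤ r * s := by
    have : 4 * (x * y * z) ≤ 4 * (r * s) + 2 := by
      have e : 4 * r * s = 4 * (r * s) := by ring
      omega
    omega
  have hxr : r ≤ x := by
    by_contra hcon
    obtain ⟨f, rfl⟩ : ∃ f, s = f + 1 := ⟨s - 1, by omega⟩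
    obtain ⟨g, rfl⟩ : ∃ g, r = g + 1 := ⟨r - 1, by omega⟩
    rw [Nat.add_sub_cancel] at hxl
    have h5 : x ≤ g := by omega
    have h6 : (f + 1) * x ≤ (f + 1) * g := Nat.mul_le_mul_left _ h5
    have h7 : f * (g + 1) + g = (f + 1) * g + f := by ring
    omega
  obtain ⟨g, rfl⟩ : ∃ g, r = g + 3 := ⟨r - 3, by omega⟩
  have e3 : g + 3 - 1 = g + 2 := by omega
  rw [e3] at hyl
  have hz1 : z = 1 := by
    by_contra hcon
    have h5 : 2 ≤ z := by omega
    have h6 : (g + 3) * y * 2 ≤ x * y * z :=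
      Nat.mul_le_mul (Nat.mul_le_mul_right _ hxr) h5
    nlinarith
  rw [hz1, mul_one] at hnle
  have hxle : x ≤ g + 4 := by
    by_contra hcon
    have h5 : g + 5 ≤ x := by omega
    have h6 : (g + 5) * y ≤ x * y := Nat.mul_le_mul_right _ h5
    have h7 : (g + 5) * y ≤ (g + 3) * s := h6.trans hnle
    have h8 : (g + 3) * ((g + 5) * y) ≤ (g + 3) * ((g + 3) * s) := Nat.mul_le_mul_left _ h7
    have h9 : (g + 5) * ((g + 2) * s + 1) ≤ (g + 5) * ((g + 3) * y) :=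
      Nat.mul_le_mul_left _ hyl
    nlinarith
  have hx2 : x = g + 3 ∨ x = g + 4 := by omega
  rcases hx2 with rfl | rfl
  · exact hrr hxpow
  · -- then `2` divides `n`, but `2` is not a square modulo `v`
    have hodd : ¬ 2 ∣ g + 3 := fun h => by
      have := (Nat.prime_dvd_prime_iff_eq Nat.prime_two hr).1 h
      omega
    have hodds : ¬ 2 ∣ s := fun h => by
      have := (Nat.prime_dvd_prime_iff_eq Nat.prime_two hs).1 h
      omega
    obtain ⟨c, hc⟩ := hxo 2 Nat.prime_two (by omega)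
    have hsq : IsSquare (2 : ZMod v) := by
      refine ⟨(2 : ZMod v) ^ (c + 1), ?_⟩
      have h6 : (2 : ZMod v) ^ (2 * c + 1) = 1 := by
        have := pow_orderOf_eq_one ((2 : ℕ) : ZMod v)
        rw [hc] at this
        push_cast at this
        exact this
      calc (2 : ZMod v) = (2 : ZMod v) ^ (2 * c + 1) * 2 := by rw [h6, one_mul]
        _ = _ := by ring
    rw [ZMod.exists_sq_eq_two_iff (by omega)] at hsq
    obtain ⟨g', hg'⟩ : ∃ g', g + 3 = 2 * g' + 1 := ⟨(g + 2) / 2, by omega⟩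
    obtain ⟨s', hs'⟩ : ∃ s', s = 2 * s' + 1 := ⟨s / 2, by omega⟩
    have h8 : v = 8 * (2 * g' * s' + g' + s') + 5 := by
      rw [hvv, hg', hs']
      ring
    omega

/-- **Two primes**, `v - 1 = 2 ^ e * r ^ c * s ^ d`: a small root of unity. -/
theorem small_root (hv : v.Prime) {lam : ℕ} (hD : IsDS D (lam : ℤ)) (h1 : 1 < D.card)
    (h2 : D.card + 1 < v) {r s e c d : ℕ} (hr : r.Prime) (hs : s.Prime) (hr2 : 2 < r) (hs2 : 2 < s)
    (hc : 0 < c) (hd : 0 < d) (hv1 : v - 1 = 2 ^ e * r ^ c * s ^ d)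
    (hx : ∀ x : ℕ, (s - 1) * r < s * x → 8 * s * x < 3 * (v + 1) → (x : ZMod v) ^ r ^ c ≠ 1) :
    ∃ t : (ZMod v)ˣ, t ≠ 1 ∧ IsMult D t := by
  by_contra hno
  obtain ⟨x, y, z, hn, hz0, hxl, hyl, hxpow, -⟩ := no_mult hv hD h1 h2 hr hs hr2 hs2 hc hd hv1 hno
  have h4 := four_mul_le hD h1 h2 hn
  refine hx x hxl ?_ hxpow
  have h5 : 4 * (x * y) ≤ v + 1 := by
    have h6 : x * y ≤ x * y * z := Nat.le_mul_of_pos_right _ hz0
    omega
  obtain ⟨g, rfl⟩ : ∃ g, r = g + 3 := ⟨r - 3, by omega⟩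
  have e3 : g + 3 - 1 = g + 2 := by omega
  rw [e3] at hyl
  have hx0 : 0 < x := by
    rcases Nat.eq_zero_or_pos x with h | h
    · rw [h, mul_zero] at hxl
      omega
    · exact h
  by_contra hcon
  push Not at hcon
  -- `(g + 2) 8 s x ≥ (g + 2) 3 (v + 1)` and `4 x (g + 2) s < 4 x (g + 3) y ≤ (g + 3) (v + 1)`
  have h6 : (g + 2) * (3 * (v + 1)) ≤ (g + 2) * (8 * s * x) := Nat.mul_le_mul_left _ hcon
  have h7 : 4 * x * ((g + 2) * s) < 4 * x * ((g + 3) * y) :=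
    Nat.mul_lt_mul_of_pos_left hyl (by omega)
  have h8 : (g + 3) * (4 * (x * y)) ≤ (g + 3) * (v + 1) := Nat.mul_le_mul_left _ h5
  nlinarith

end Pool.Agent.H66.CM
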